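import Pool.Agent.Lib.MP_16285c_agZ.Hru.Spec

/-!
# Frobenius points of plane maps: the function field of a plane curve
-/

set_option autoImplicit false

namespace Pool.Agent.Lib.MP_16285c_agZ.Hru

open MP7Z
open scoped IntermediateField

/-- A polynomial in `X 0` does not involve `X 1`. -/
theorem degreeOf_one_aeval {k : Type} [Field k] (g : Polynomial k) :
    (Polynomial.aeval (MvPolynomial.X 0 : MvPolynomial (Fin 2) k) g).degreeOf 1 = 0 := by
  rw [Polynomial.aeval_eq_sum_range]
  refine Nat.le_zero.1 ((MvPolynomial.degreeOf_sum_le _ _ _).trans (Finset.sup_le fun i _ => ?_))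
  rw [MvPolynomial.smul_eq_C_mul]
  refine (MvPolynomial.degreeOf_mul_le _ _ _).trans ?_
  rw [MvPolynomial.degreeOf_C, zero_add]
  refine (MvPolynomial.degreeOf_pow_le _ _ _).trans ?_
  rw [MvPolynomial.degreeOf_X_of_ne (by decide), mul_zero]

/-- A polynomial which involves `X 1` does not divide a polynomial in `X 0`. -/
theorem not_dvd_aeval {k : Type} [Field k] {P : MvPolynomial (Fin 2) k} (hP : 0 < P.degreeOf 1)
    {g : Polynomial k} (hg : g ≠ 0) :
    ¬ P ∣ Polynomial.aeval (MvPolynomial.X 0 : MvPolynomial (Fin 2) k) g := by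
  have hG : Polynomial.aeval (MvPolynomial.X 0 : MvPolynomial (Fin 2) k) g ≠ 0 := by
    intro h
    exact hg ((transcendental_iff.1 (MvPolynomial.transcendental_X k (0 : Fin 2))) g h)
  rintro ⟨S, hS⟩
  have h1 := degreeOf_one_aeval g
  rw [hS] at hG h1
  rw [MvPolynomial.degreeOf_mul_eq (left_ne_zero_of_mul hG) (right_ne_zero_of_mul hG)] at h1
  omega

/-- The polynomial ring over the ring of polynomials in `X 0`. -/
noncomputable def swE (k : Type) [Field k] :
    MvPolynomial (Fin 2) k ≃ₐ[k] Polynomial (MvPolynomial (Fin 1) k) :=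
  (MvPolynomial.renameEquiv k (Equiv.swap (0 : Fin 2) 1)).trans (MvPolynomial.finSuccEquiv k 1)

theorem swE_apply {k : Type} [Field k] (P : MvPolynomial (Fin 2) k) :
    swE k P = MvPolynomial.finSuccEquiv k 1 (MvPolynomial.rename (Equiv.swap (0 : Fin 2) 1) P) :=
  rfl

theorem swE_zero (k : Type) [Field k] :
    swE k (MvPolynomial.X 0) = Polynomial.C (MvPolynomial.X 0) := by
  rw [swE_apply, MvPolynomial.rename_X, Equiv.swap_apply_left]
  exact MvPolynomial.finSuccEquiv_X_succ (j := (0 : Fin 1))

theorem swE_one (k : Type) [Field k] : swE k (MvPolynomial.X 1) = Polynomial.X := by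
  rw [swE_apply, MvPolynomial.rename_X, Equiv.swap_apply_right]
  exact MvPolynomial.finSuccEquiv_X_zero

theorem swE_deg {k : Type} [Field k] (P : MvPolynomial (Fin 2) k) :
    (swE k P).natDegree = P.degreeOf 1 := by
  rw [swE_apply, MvPolynomial.natDegree_finSuccEquiv]
  have h2 := MvPolynomial.degreeOf_rename_of_injective (p := P)
    (Equiv.swap (0 : Fin 2) 1).injective 1
  rwa [Equiv.swap_apply_right] at h2

/-- The polynomial over `K` obtained by a transcendental value of `X 0`. -/
theorem exists_poly {k K : Type} [Field k] [Field K] [Algebra k K] (u : K)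
    (hu : Transcendental k u) (P : MvPolynomial (Fin 2) k) (hP : P ≠ 0) :
    ∃ Q : Polynomial K, Q ≠ 0 ∧ Q.natDegree ≤ P.degreeOf 1 ∧
      ∀ (E : Type) [Field E] [Algebra k E] [Algebra K E] [IsScalarTower k K E] (y : E),
        Polynomial.aeval y Q = MvPolynomial.aeval ![algebraMap K E u, y] P := by
  obtain ⟨φ, hφ, hφX⟩ : ∃ φ : MvPolynomial (Fin 1) k →ₐ[k] K, Function.Injective φ ∧
      φ (MvPolynomial.X 0) = u :=
    ⟨MvPolynomial.aeval fun _ => u,
      (algebraicIndependent_unique_type_iff (ι := Fin 1) (x := fun _ => u)).2 hu,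
      MvPolynomial.aeval_X _ _⟩
  refine ⟨(swE k P).map (φ : MvPolynomial (Fin 1) k →+* K), ?_, ?_, ?_⟩
  · intro h
    have h1 : swE k P = 0 := Polynomial.map_injective (φ : MvPolynomial (Fin 1) k →+* K) hφ
      (by rw [h, Polynomial.map_zero])
    exact hP ((map_eq_zero_iff (swE k) (swE k).injective).1 h1)
  · exact Polynomial.natDegree_map_le.trans (le_of_eq (swE_deg P))
  · intro E _ _ _ _ y
    rw [Polynomial.aeval_def, Polynomial.eval₂_map]
    have key : ∀ A : MvPolynomial (Fin 2) k,
        Polynomial.eval₂ ((algebraMap K E).comp (φ : MvPolynomial (Fin 1) k →+* K)) y (swE k A) =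
          MvPolynomial.aeval ![algebraMap K E u, y] A := by
      intro A
      induction A using MvPolynomial.induction_on with
      | C c =>
        rw [MvPolynomial.aeval_C, ← MvPolynomial.algebraMap_eq, (swE k).commutes,
          Polynomial.algebraMap_apply, Polynomial.eval₂_C, RingHom.comp_apply,
          RingHom.coe_coe, φ.commutes, ← IsScalarTower.algebraMap_apply]
      | add p q hp hq => rw [map_add, Polynomial.eval₂_add, hp, hq, map_add]
      | mul_X p i hp =>
        rw [map_mul, Polynomial.eval₂_mul, hp, map_mul, MvPolynomial.aeval_X]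
        congr 1
        fin_cases i
        · change Polynomial.eval₂ _ y (swE k (MvPolynomial.X 0)) = algebraMap K E u
          rw [swE_zero, Polynomial.eval₂_C, RingHom.comp_apply, RingHom.coe_coe, hφX]
        · change Polynomial.eval₂ _ y (swE k (MvPolynomial.X 1)) = y
          rw [swE_one, Polynomial.eval₂_X]
    exact key P

/-- (S9) The function field of a plane curve. -/
theorem tFld : SFld := by
  intro k _ P F d hP hP1 hPF hF hFd
  have hPd : P.degreeOf 1 ≤ d := by
    obtain ⟨S, rfl⟩ := hPF
    rw [MvPolynomial.degreeOf_mul_eq (left_ne_zero_of_mul hF) (right_ne_zero_of_mul hF)] at hFd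
    omega
  let I : Ideal (MvPolynomial (Fin 2) k) := Ideal.span {P}
  have hI : I.IsPrime := (Ideal.span_singleton_prime hP.ne_zero).2 hP.prime
  let R := MvPolynomial (Fin 2) k ⧸ I
  let E := FractionRing R
  let x : E := algebraMap R E (Ideal.Quotient.mk I (MvPolynomial.X 0))
  let y : E := algebraMap R E (Ideal.Quotient.mk I (MvPolynomial.X 1))
  have hev : ∀ A : MvPolynomial (Fin 2) k, MvPolynomial.aeval ![x, y] A =
      algebraMap R E (Ideal.Quotient.mk I A) := by
    intro A
    have h : (MvPolynomial.aeval ![x, y] : MvPolynomial (Fin 2) k →ₐ[k] E) =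
        (IsScalarTower.toAlgHom k R E).comp (Ideal.Quotient.mkₐ k I) := by
      refine MvPolynomial.algHom_ext fun i => ?_
      rw [MvPolynomial.aeval_X]
      fin_cases i <;> rfl
    rw [h]
    rfl
  have hzero : ∀ A : MvPolynomial (Fin 2) k, MvPolynomial.aeval ![x, y] A = 0 ↔ P ∣ A := by
    intro A
    rw [hev, map_eq_zero_iff _ (IsFractionRing.injective R E), Ideal.Quotient.eq_zero_iff_mem,
      Ideal.mem_span_singleton]
  have hx : Transcendental k x := by
    rw [transcendental_iff]
    intro g hg
    by_contra hg0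
    refine not_dvd_aeval hP1 hg0 ((hzero _).1 ?_)
    rw [← Polynomial.aeval_algHom_apply, MvPolynomial.aeval_X]
    exact hg
  let u : k⟮x⟯ := IntermediateField.AdjoinSimple.gen k x
  have hu : algebraMap k⟮x⟯ E u = x := IntermediateField.AdjoinSimple.algebraMap_gen k x
  have hut : Transcendental k u := by
    intro h
    refine hx ?_
    have h4 := h.algebraMap (A := E)
    rwa [hu] at h4
  obtain ⟨Q, hQ0, hQd, hQ⟩ := exists_poly u hut P hP.ne_zero
  have hQy : Polynomial.aeval y Q = 0 := by
    rw [hQ E y, hu, hzero]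
  have hint : IsIntegral k⟮x⟯ y := (isAlgebraic_iff_isIntegral).1 ⟨Q, hQ0, hQy⟩
  have htop : k⟮x⟯⟮y⟯ = ⊤ := by
    rw [eq_top_iff]
    rintro z -
    have hmem : ∀ A : MvPolynomial (Fin 2) k, MvPolynomial.aeval ![x, y] A ∈ k⟮x⟯⟮y⟯ := by
      intro A
      induction A using MvPolynomial.induction_on with
      | C c =>
        rw [MvPolynomial.aeval_C, IsScalarTower.algebraMap_apply k k⟮x⟯ E]
        exact k⟮x⟯⟮y⟯.algebraMap_mem _
      | add p q hp hq =>
        rw [map_add]
        exact add_mem hp hq
      | mul_X p i hp =>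
        rw [map_mul, MvPolynomial.aeval_X]
        refine mul_mem hp ?_
        fin_cases i
        · change x ∈ _
          rw [← hu]
          exact k⟮x⟯⟮y⟯.algebraMap_mem _
        · exact IntermediateField.mem_adjoin_simple_self _ y
    obtain ⟨a, b, hb, rfl⟩ := IsFractionRing.div_surjective (A := R) z
    obtain ⟨A, rfl⟩ := Ideal.Quotient.mk_surjective a
    obtain ⟨B, rfl⟩ := Ideal.Quotient.mk_surjective b
    rw [← hev, ← hev]
    exact div_mem (hmem A) (hmem B)
  have hfin : Module.Finite k⟮x⟯ E := by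
    have h5 : FiniteDimensional k⟮x⟯ k⟮x⟯⟮y⟯ := IntermediateField.adjoin.finiteDimensional hint
    rw [htop] at h5
    exact Module.Finite.equiv (IntermediateField.topEquiv (F := k⟮x⟯) (E := E)).toLinearEquiv
  have hrank : Module.finrank k⟮x⟯ E ≤ d := by
    have h6 := IntermediateField.adjoin.finrank hint
    rw [htop, IntermediateField.finrank_top'] at h6
    rw [h6]
    exact ((Polynomial.natDegree_le_of_dvd (minpoly.dvd _ _ hQy) hQ0).trans hQd).trans hPd
  exact ⟨E, inferInstance, inferInstance, x, y, ⟨⟨x, hx, hfin⟩⟩, hx, hfin, hrank, hzero⟩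

end Pool.Agent.Lib.MP_16285c_agZ.Hru
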