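import Pool.Agent.Lib.MP_16285c_agZ.Hru.Spec

/-!
# Numbers of poles (S6)
-/

set_option autoImplicit false

namespace Pool.Agent.Lib.MP_16285c_agZ.Hru

open MP7Z

namespace PnAux

variable {k E : Type} [Field k] [IsAlgClosed k] [Field E] [Algebra k E]

theorem oz_zero (v : Place k E) : v.oz (0 : E) = 0 := by
  unfold Place.oz
  simp

/-- A lower bound for the order gives a lower bound for the integral order if the bound is not positive. -/
theorem le_oz_of_le_ord (v : Place k E) {g : E} {m : ℤ} (h : ((m : ℤ) : WithTop ℤ) ≤ v.ord g) :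
    min m 0 ≤ v.oz g := by
  rcases eq_or_ne g 0 with rfl | hg
  · rw [oz_zero]; exact min_le_right _ _
  · rw [v.ord_eq hg] at h
    exact (min_le_left _ _).trans (WithTop.coe_le_coe.1 h)

/-- The converse. -/
theorem coe_oz_le (v : Place k E) (g : E) : ((v.oz g : ℤ) : WithTop ℤ) ≤ v.ord g := by
  rcases eq_or_ne g 0 with rfl | hg
  · simp
  · rw [v.ord_eq hg]

theorem ord_algebraMap_nonneg (v : Place k E) (c : k) : 0 ≤ v.ord (algebraMap k E c) := v.const c

section fin

variable [IsCurveField k E]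

theorem supp_pos (h : E) : (Function.support fun v : Place k E => max (-(v.oz h)) 0).Finite := by
  rcases eq_or_ne h 0 with rfl | h0
  · have : (Function.support fun v : Place k E => max (-(v.oz (0 : E))) 0) = ∅ := by
      ext v; simp [oz_zero]
    rw [this]; exact Set.finite_empty
  · refine (finite_ord_ne h0).subset ?_
    intro v hv
    rw [Function.mem_support] at hv
    intro h1
    apply hv
    have h2 : v.oz h = 0 := by
      have h3 := v.ord_eq h0
      rw [h1] at h3
      exact (WithTop.coe_inj.1 h3.symm)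
    rw [h2]; simp

theorem le_sum {F : Place k E → ℤ} {h : E} (hF : (Function.support F).Finite)
    (hle : ∀ v : Place k E, max (-(v.oz h)) 0 ≤ F v) : Pn k h ≤ ∑ᶠ v : Place k E, F v :=
  finsum_le_finsum' (supp_pos h) hF hle

theorem pn_nonneg (g : E) : 0 ≤ Pn k g := finsum_nonneg fun _ => le_max_right _ _

theorem add_eq (g h : E) : Pn k g + Pn k h =
    ∑ᶠ v : Place k E, (max (-(v.oz g)) 0 + max (-(v.oz h)) 0) :=
  (finsum_add_distrib (supp_pos g) (supp_pos h)).symm

theorem supp_add (g h : E) :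
    (Function.support fun v : Place k E => max (-(v.oz g)) 0 + max (-(v.oz h)) 0).Finite := by
  refine ((supp_pos g).union (supp_pos h)).subset ?_
  exact Function.support_add _ _

theorem mul_eq (n : ℕ) (g : E) : (n : ℤ) * Pn k g =
    ∑ᶠ v : Place k E, (n : ℤ) * max (-(v.oz g)) 0 :=
  mul_finsum _ _

end fin

/-- Lower bound for the order of a polynomial in `x`, `y`. -/
theorem ord_aeval (v : Place k E) (x y : E) (A : MvPolynomial (Fin 2) k) (m : ℤ) (hm : 0 ≤ m)
    (hx : -m ≤ v.oz x) (hy : -m ≤ v.oz y) :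
    ((-((A.totalDegree : ℤ) * m) : ℤ) : WithTop ℤ) ≤ v.ord (MvPolynomial.aeval ![x, y] A) := by
  have hc : ∀ i : Fin 2, ((-m : ℤ) : WithTop ℤ) ≤ v.ord ((![x, y] : Fin 2 → E) i) := by
    intro i
    fin_cases i
    · exact (WithTop.coe_le_coe.2 hx).trans (coe_oz_le v x)
    · exact (WithTop.coe_le_coe.2 hy).trans (coe_oz_le v y)
  have hpow : ∀ (i : Fin 2) (n : ℕ), ((-((n : ℤ) * m) : ℤ) : WithTop ℤ) ≤ v.ord ((![x, y] : Fin 2 → E) i ^ n) := by
    intro i n
    induction n with
    | zero => simp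
    | succ n ih =>
      rw [pow_succ, AddValuation.map_mul]
      have h1 : ((-(((n + 1 : ℕ) : ℤ) * m) : ℤ) : WithTop ℤ) =
          ((-((n : ℤ) * m) : ℤ) : WithTop ℤ) + ((-m : ℤ) : WithTop ℤ) := by
        rw [← WithTop.coe_add]
        congr 1
        push_cast
        ring
      rw [h1]
      exact add_le_add ih (hc i)
  rw [MvPolynomial.aeval_def, MvPolynomial.eval₂_eq]
  apply AddValuation.map_le_sum
  intro s hs
  have hdeg : (s.sum fun _ e => e) ≤ A.totalDegree := MvPolynomial.le_totalDegree hs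
  rw [AddValuation.map_mul]
  have hprod : ((-(((s.sum fun _ e => e : ℕ) : ℤ) * m) : ℤ) : WithTop ℤ) ≤
      v.ord (∏ i ∈ s.support, (![x, y] : Fin 2 → E) i ^ s i) := by
    have h2 : ∀ t : Finset (Fin 2), ((-(((∑ i ∈ t, s i : ℕ) : ℤ) * m) : ℤ) : WithTop ℤ) ≤
        v.ord (∏ i ∈ t, (![x, y] : Fin 2 → E) i ^ s i) := by
      intro t
      induction t using Finset.induction_on with
      | empty => simp
      | insert i t hi ih =>
        rw [Finset.sum_insert hi, Finset.prod_insert hi, AddValuation.map_mul]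
        have h1 : ((-(((s i + ∑ j ∈ t, s j : ℕ) : ℤ) * m) : ℤ) : WithTop ℤ) =
            ((-((s i : ℤ) * m) : ℤ) : WithTop ℤ) + ((-(((∑ j ∈ t, s j : ℕ) : ℤ) * m) : ℤ) : WithTop ℤ) := by
          rw [← WithTop.coe_add]
          congr 1
          push_cast
          ring
        rw [h1]
        exact add_le_add (hpow i (s i)) ih
    exact h2 s.support
  have h3 : ((-((A.totalDegree : ℤ) * m) : ℤ) : WithTop ℤ) ≤
      ((-(((s.sum fun _ e => e : ℕ) : ℤ) * m) : ℤ) : WithTop ℤ) := by
    apply WithTop.coe_le_coe.2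
    have h4 : ((s.sum fun _ e => e : ℕ) : ℤ) ≤ (A.totalDegree : ℤ) := by exact_mod_cast hdeg
    nlinarith
  calc ((-((A.totalDegree : ℤ) * m) : ℤ) : WithTop ℤ)
      ≤ ((-(((s.sum fun _ e => e : ℕ) : ℤ) * m) : ℤ) : WithTop ℤ) := h3
    _ = 0 + ((-(((s.sum fun _ e => e : ℕ) : ℤ) * m) : ℤ) : WithTop ℤ) := (zero_add _).symm
    _ ≤ _ := add_le_add (v.const _) hprod

end PnAux

open PnAux

theorem tPn : SPn := by
  intro k E _ _ _ _ _
  refine ⟨fun g h => ?_, fun g h => ?_, fun g n => ?_, fun g => ?_, fun g => ?_, pn_nonneg, ?_⟩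
  · -- sum
    rw [add_eq]
    refine le_sum (supp_add g h) fun v => ?_
    have h1 : ((min (v.oz g) (v.oz h) : ℤ) : WithTop ℤ) ≤ v.ord (g + h) := by
      refine le_trans ?_ (v.ord.map_add g h)
      rw [WithTop.coe_min]
      exact min_le_min (coe_oz_le v g) (coe_oz_le v h)
    have h2 := le_oz_of_le_ord v h1
    omega
  · -- product
    rw [add_eq]
    refine le_sum (supp_add g h) fun v => ?_
    rcases eq_or_ne g 0 with rfl | hg
    · rw [zero_mul, oz_zero]; omega
    · rcases eq_or_ne h 0 with rfl | hh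
      · rw [mul_zero, oz_zero]; omega
      · rw [v.oz_mul hg hh]; omega
  · -- powers
    rw [mul_eq]
    unfold Pn
    refine finsum_congr fun v => ?_
    rcases eq_or_ne g 0 with rfl | hg
    · rcases Nat.eq_zero_or_pos n with rfl | hn
      · have : v.oz (1 : E) = 0 := v.oz_one
        simp [this]
      · rw [zero_pow hn.ne', oz_zero]; simp
    · have h1 : v.oz (g ^ n) = n * v.oz g := v.pord_pow hg n
      rw [h1, mul_max_of_nonneg _ _ (Int.natCast_nonneg n), mul_zero, mul_neg]
  · -- inverse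
    unfold Pn Zn
    refine finsum_congr fun v => ?_
    rcases eq_or_ne g 0 with rfl | hg
    · rw [inv_zero, oz_zero]; simp
    · rw [v.oz_inv hg, neg_neg]
  · -- negative
    unfold Pn
    refine finsum_congr fun v => ?_
    have h1 : v.oz (-g) = v.oz g := by
      unfold Place.oz
      rw [AddValuation.map_neg]
    rw [h1]
  · intro x y A
    rw [add_eq, mul_finsum]
    refine le_sum ?_ fun v => ?_
    · refine (supp_add x y).subset ?_
      intro v hv
      rw [Function.mem_support] at hv ⊢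
      intro h0
      apply hv
      rw [h0, mul_zero]
    · set m : ℤ := max (-(v.oz x)) 0 + max (-(v.oz y)) 0 with hm
      have hm0 : 0 ≤ m := by omega
      have h1 := ord_aeval v x y A m hm0 (by omega) (by omega)
      have h2 := le_oz_of_le_ord v h1
      have h3 : 0 ≤ (A.totalDegree : ℤ) * m := mul_nonneg (Int.natCast_nonneg _) hm0
      omega

end Pool.Agent.Lib.MP_16285c_agZ.Hru
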