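import Pool.Agent.Lib.MP_16285c_agZ.Hru.Spec

/-!
# A derivation is bounded on the valuation ring of a place
-/

set_option autoImplicit false

namespace Pool.Agent.Lib.MP_16285c_agZ.Hru

open MP7Z
open IsDedekindDomain (HeightOneSpectrum)
open WithZero
open scoped IntermediateField
open scoped IntermediateField.algebraAdjoinAdjoin

theorem bd_pid {k E : Type} [Field k] [Field E] [Algebra k E] {t : E} (ht : Transcendental k t) :
    IsPrincipalIdealRing (Algebra.adjoin k {t}) := by
  have hinj : Function.Injective (Polynomial.aeval (R := k) t) := transcendental_iff_injective.1 ht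
  rw [Algebra.adjoin_singleton_eq_range_aeval k t]
  let e : Polynomial k ≃ₐ[k] (Polynomial.aeval (R := k) t).range := AlgEquiv.ofInjective _ hinj
  exact IsPrincipalIdealRing.of_surjective (e : Polynomial k →+* _) e.surjective

theorem bd_finset {k E : Type} [Field k] [IsAlgClosed k] [Field E] [Algebra k E] (v : Place k E)
    (F : Finset E) : ∃ M : ℤ, 0 ≤ M ∧ ∀ z ∈ F, ((-M : ℤ) : WithTop ℤ) ≤ v.ord z := by
  classical
  induction F using Finset.induction_on with
  | empty => exact ⟨0, le_rfl, by simp⟩
  | insert z F _ ih =>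
    obtain ⟨M, hM0, hM⟩ := ih
    refine ⟨max M |v.oz z|, le_max_of_le_left hM0, ?_⟩
    intro w hw
    rw [Finset.mem_insert] at hw
    rcases hw with rfl | hw
    · by_cases hw0 : w = 0
      · rw [hw0, AddValuation.map_zero]
        exact le_top
      · rw [v.ord_eq hw0, WithTop.coe_le_coe]
        have h1 := le_max_right M |v.oz w|
        have h2 := neg_abs_le (v.oz w)
        omega
    · refine le_trans ?_ (hM w hw)
      rw [WithTop.coe_le_coe]
      have h1 := le_max_left M |v.oz z|
      omega

theorem bd_core {k E : Type} [Field k] [IsAlgClosed k] [Field E] [Algebra k E] [IsCurveField k E]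
    (t : E) (ht : Transcendental k t) (hsep : Algebra.IsSeparable k⟮t⟯ E) (D : Derivation k E E)
    (v : Place k E) (hv : 0 ≤ v.ord t) :
    ∃ M : ℤ, ∀ u : E, 0 ≤ v.ord u → ((-M : ℤ) : WithTop ℤ) ≤ v.ord (D u) := by
  classical
  have hfin : Module.Finite k⟮t⟯ E := finite_adjoin ht
  have hpid : IsPrincipalIdealRing (Algebra.adjoin k {t}) := bd_pid ht
  have hded : IsDedekindDomain (Algebra.adjoin k {t}) := inferInstance
  set A := Algebra.adjoin k {t} with hA
  set B := integralClosure A E with hB
  have hBD : IsDedekindDomain B := integralClosure.isDedekindDomain A k⟮t⟯ E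
  have hBF : IsFractionRing B E := integralClosure.isFractionRing_of_finite_extension k⟮t⟯ E
  have hBfin : Module.Finite A B := IsIntegralClosure.finite A k⟮t⟯ E B
  have hA0 : ∀ a : A, 0 ≤ v.ord (a : E) := by
    intro a
    have h1 : (a : E) ∈ Algebra.adjoin k {t} := a.2
    rw [Algebra.adjoin_singleton_eq_range_aeval] at h1
    obtain ⟨p, hp⟩ := h1
    have h2 : Polynomial.aeval t p = (a : E) := hp
    rw [← h2]
    exact v.ord_aeval_nonneg hv p
  have hB0 : ∀ b : B, 0 ≤ v.ord (b : E) := by
    intro b
    have hb : IsIntegral A (b : E) := b.2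
    have h1 : IsIntegral v.ring (b : E) := by
      let φ : A →+* v.ring := (algebraMap A E).codRestrict v.ring.toSubring (fun x => hA0 x)
      exact hb.map_of_comp_eq φ (RingHom.id E) (by ext x; rfl)
    obtain ⟨y, hy⟩ := (IsIntegrallyClosed.isIntegral_iff (R := v.ring) (K := E)).1 h1
    rw [← hy]
    exact y.2
  obtain ⟨s, hs⟩ := hBfin.fg_top
  obtain ⟨M, hM0, hM⟩ := bd_finset v (insert (D t) (s.image fun b : B => D (b : E)))
  have hMt : ((-M : ℤ) : WithTop ℤ) ≤ v.ord (D t) := hM _ (Finset.mem_insert_self _ _)
  have hMs : ∀ b ∈ s, ((-M : ℤ) : WithTop ℤ) ≤ v.ord (D (b : E)) := fun b hb =>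
    hM _ (Finset.mem_insert_of_mem (Finset.mem_image_of_mem _ hb))
  -- the subalgebra
  let S : Subalgebra k E :=
    { carrier := {b | 0 ≤ v.ord b ∧ ((-M : ℤ) : WithTop ℤ) ≤ v.ord (D b)}
      mul_mem' := by
        rintro a b ⟨ha, ha'⟩ ⟨hb, hb'⟩
        refine ⟨?_, ?_⟩
        · rw [AddValuation.map_mul]
          exact add_nonneg ha hb
        · rw [Derivation.leibniz, smul_eq_mul, smul_eq_mul]
          refine le_trans (le_min ?_ ?_) (v.ord.map_add _ _)
          · rw [AddValuation.map_mul]
            exact le_trans (le_of_eq (zero_add _).symm) (add_le_add ha hb')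
          · rw [AddValuation.map_mul]
            exact le_trans (le_of_eq (zero_add _).symm) (add_le_add hb ha')
      add_mem' := by
        rintro a b ⟨ha, ha'⟩ ⟨hb, hb'⟩
        refine ⟨le_trans (le_min ha hb) (v.ord.map_add _ _), ?_⟩
        rw [map_add]
        exact le_trans (le_min ha' hb') (v.ord.map_add _ _)
      algebraMap_mem' := by
        intro c
        refine ⟨v.const c, ?_⟩
        rw [Derivation.map_algebraMap, AddValuation.map_zero]
        exact le_top }
  have hSmem : ∀ b : E, b ∈ S ↔ 0 ≤ v.ord b ∧ ((-M : ℤ) : WithTop ℤ) ≤ v.ord (D b) :=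
    fun b => Iff.rfl
  have hAS : ∀ a : A, (a : E) ∈ S := by
    intro a
    have h1 : A ≤ S := by
      rw [hA]
      refine Algebra.adjoin_le ?_
      rintro z rfl
      exact ⟨hv, hMt⟩
    exact h1 a.2
  have hBS : ∀ b : B, (b : E) ∈ S := by
    intro b
    have h1 : b ∈ Submodule.span A (s : Set B) := by rw [hs]; trivial
    induction h1 using Submodule.span_induction with
    | mem x hx => exact ⟨hB0 x, hMs x hx⟩
    | zero => exact S.zero_mem
    | add x y _ _ hx hy => exact S.add_mem hx hy
    | smul a x _ hx =>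
      have h2 : ((a • x : B) : E) = (a : E) * (x : E) := rfl
      rw [h2]
      exact S.mul_mem (hAS a) hx
  -- the centre of `v` on `B`
  let P : Ideal B :=
    { carrier := {b | 0 < v.ord (b : E)}
      add_mem' := by
        intro a b ha hb
        exact lt_of_lt_of_le (lt_min ha hb) (v.ord.map_add _ _)
      zero_mem' := by
        change 0 < v.ord ((0 : B) : E)
        rw [ZeroMemClass.coe_zero, AddValuation.map_zero]
        exact WithTop.coe_lt_top 0
      smul_mem' := by
        intro c a ha
        change 0 < v.ord ((c • a : B) : E)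
        rw [smul_eq_mul, MulMemClass.coe_mul, AddValuation.map_mul]
        exact lt_of_lt_of_le (lt_of_lt_of_le ha (le_of_eq (zero_add _).symm))
          (add_le_add (hB0 c) le_rfl) }
  have hPmem : ∀ b : B, b ∈ P ↔ 0 < v.ord (b : E) := fun b => Iff.rfl
  have hPprime : P.IsPrime := by
    refine ⟨?_, ?_⟩
    · intro h
      have : (1 : B) ∈ P := by rw [h]; trivial
      rw [hPmem, OneMemClass.coe_one, AddValuation.map_one] at this
      exact lt_irrefl _ this
    · intro a b hab
      rw [hPmem, MulMemClass.coe_mul, AddValuation.map_mul] at hab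
      rw [hPmem, hPmem]
      by_contra hcon
      push Not at hcon
      have := add_le_add hcon.1 hcon.2
      rw [zero_add] at this
      exact absurd hab (not_lt.2 this)
  have hP0 : P ≠ ⊥ := by
    obtain ⟨c, hc⟩ := exists_const v hv
    have htA : t - algebraMap k E c ∈ A :=
      sub_mem (Algebra.self_mem_adjoin_singleton k t) (A.algebraMap_mem c)
    let a : A := ⟨t - algebraMap k E c, htA⟩
    intro h
    have h1 : algebraMap A B a ∈ P := hc
    rw [h, Ideal.mem_bot] at h1
    have h2 : ((algebraMap A B a : B) : E) = 0 := by rw [h1]; rfl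
    have h3 : t - algebraMap k E c = 0 := h2
    apply ht
    rw [sub_eq_zero.1 h3]
    exact isAlgebraic_algebraMap c
  let P0 : HeightOneSpectrum B := ⟨P, hPprime, hP0⟩
  have hne : (P0.valuation E).valuationSubring ≠ ⊤ := by
    intro h
    obtain ⟨ϖ, hϖ⟩ := P0.valuation_exists_uniformizer E
    have h1 : ϖ⁻¹ ∈ (P0.valuation E).valuationSubring := by rw [h]; trivial
    rw [Valuation.mem_valuationSubring_iff, map_inv₀, hϖ, ← exp_neg, ← exp_zero] at h1
    have := exp_le_exp.1 h1
    norm_num at this
  obtain ⟨w, hw⟩ := exists_place_of_valuationSubring (P0.valuation E).valuationSubring hne (by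
    intro c
    rw [Valuation.mem_valuationSubring_iff]
    have h1 : algebraMap k E c = algebraMap B E (algebraMap A B (algebraMap k A c)) := rfl
    rw [h1]
    exact P0.valuation_le_one _)
  have hfr : ∀ f : E, 0 ≤ w.ord f → ∃ (n : B) (d : B), v.ord (d : E) = 0 ∧
      f * (d : E) = (n : E) := by
    intro f hf
    have h1 : P0.valuation E f ≤ 1 := by
      rw [← Valuation.mem_valuationSubring_iff]
      exact (hw f).2 hf
    obtain ⟨n, d, hnd⟩ := P0.exists_primeCompl_mul_eq_of_integer f h1
    refine ⟨n, d, ?_, hnd⟩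
    have h2 : ¬ 0 < v.ord ((d : B) : E) := fun h => d.2 ((hPmem _).2 h)
    exact le_antisymm (not_lt.1 h2) (hB0 _)
  have hwv : w = v := by
    apply place_eq
    intro f hf
    obtain ⟨n, d, hd, hnd⟩ := hfr f hf
    have h3 : v.ord (f * (d : E)) = v.ord (n : E) := congrArg v.ord hnd
    rw [AddValuation.map_mul, hd, add_zero] at h3
    rw [h3]
    exact hB0 n
  refine ⟨M, fun u hu => ?_⟩
  obtain ⟨n, d, hd, hnd⟩ := hfr u (by rw [hwv]; exact hu)
  have h1 : d • D u = D (n : E) - u * D (d : E) := by
    rw [← hnd, Derivation.leibniz, smul_eq_mul, smul_eq_mul]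
    change (d : E) * D u = _
    ring
  have h2 : v.ord (D u) = v.ord (d • D u) := by
    change _ = v.ord ((d : E) * D u)
    rw [AddValuation.map_mul, hd, zero_add]
  rw [h2, h1]
  refine AddValuation.map_le_sub v.ord ?_ ?_
  · exact (hBS n).2
  · rw [AddValuation.map_mul]
    exact le_trans (le_of_eq (zero_add _).symm) (add_le_add hu (hBS d).2)

/-- A derivation is bounded on the valuation ring of a place. -/
theorem tBd : SBd := by
  intro k E _ _ _ _ _ x δ hS D v
  by_cases hx : 0 ≤ v.ord x
  · exact bd_core x hS.tr hS.sep D v hx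
  · have hx0 : x ≠ 0 := by
      rintro rfl
      exact hS.tr isAlgebraic_zero
    have hadj : (k⟮x⁻¹⟯ : IntermediateField k E) = k⟮x⟯ := by
      apply le_antisymm
      · rw [IntermediateField.adjoin_simple_le_iff]
        exact inv_mem (IntermediateField.mem_adjoin_simple_self k x)
      · rw [IntermediateField.adjoin_simple_le_iff]
        have h := inv_mem (IntermediateField.mem_adjoin_simple_self k x⁻¹)
        rwa [inv_inv] at h
    have hsep : Algebra.IsSeparable k⟮x⁻¹⟯ E := by
      rw [hadj]
      exact hS.sep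
    have htr : Transcendental k x⁻¹ := by
      intro h
      have h1 := h.inv
      rw [inv_inv] at h1
      exact hS.tr h1
    refine bd_core x⁻¹ htr hsep D v ?_
    rw [v.nonneg_iff (inv_ne_zero hx0), v.oz_inv hx0]
    rw [v.nonneg_iff hx0] at hx
    omega

end Pool.Agent.Lib.MP_16285c_agZ.Hru
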