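import Pool.Agent.Lib.MP_16285c_agZ.Hru.Spec

/-!
# The local inequality for a derivation at a place
-/

set_option autoImplicit false

namespace Pool.Agent.Lib.MP_16285c_agZ.Hru

open MP7Z
open scoped IntermediateField

variable {k E : Type} [Field k] [IsAlgClosed k] [Field E] [Algebra k E]

theorem loc_zpow (v : Place k E) {π : E} (hπ0 : π ≠ 0) (hπ : v.oz π = 1) (j : ℤ) :
    v.ord (π ^ j) = (j : WithTop ℤ) := by
  rw [v.ord_eq (zpow_ne_zero _ hπ0), v.oz_zpow hπ0, hπ, mul_one]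

/-- One step of the improvement of a lower bound. -/
theorem loc_step [IsCurveField k E] (δ : Derivation k E E) (v : Place k E) {π : E} (hπ0 : π ≠ 0)
    (hπ : v.oz π = 1) (L : ℤ)
    (h : ∀ u : E, 0 ≤ v.ord u → min (v.ord (δ π)) (L : WithTop ℤ) ≤ v.ord (δ u)) :
    ∀ u : E, 0 ≤ v.ord u → min (v.ord (δ π)) ((L + 1 : ℤ) : WithTop ℤ) ≤ v.ord (δ u) := by
  intro u hu
  obtain ⟨c, hc⟩ := exists_const v hu
  have hu1 : 0 ≤ v.ord ((u - algebraMap k E c) * π⁻¹) := by
    by_cases h0 : u - algebraMap k E c = 0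
    · rw [h0, zero_mul, AddValuation.map_zero]
      exact le_top
    · rw [v.nonneg_iff (mul_ne_zero h0 (inv_ne_zero hπ0)), v.oz_mul h0 (inv_ne_zero hπ0),
        v.oz_inv hπ0, hπ]
      rw [v.pos_iff h0] at hc
      omega
  have h1 : δ u = π * δ ((u - algebraMap k E c) * π⁻¹) +
      ((u - algebraMap k E c) * π⁻¹) * δ π := by
    have h2 : π * ((u - algebraMap k E c) * π⁻¹) = u - algebraMap k E c := by
      field_simp
    have h3 : δ (π * ((u - algebraMap k E c) * π⁻¹)) = δ u := by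
      rw [h2, map_sub, Derivation.map_algebraMap, sub_zero]
    rw [← h3, Derivation.leibniz, smul_eq_mul, smul_eq_mul]
  rw [h1]
  refine le_trans (le_min ?_ ?_) (v.ord.map_add _ _)
  · rw [AddValuation.map_mul]
    have h2 := h _ hu1
    have h3 : v.ord π = ((1 : ℤ) : WithTop ℤ) := by rw [v.ord_eq hπ0, hπ]
    rw [h3]
    have h4 : min (v.ord (δ π)) ((L + 1 : ℤ) : WithTop ℤ) ≤
        ((1 : ℤ) : WithTop ℤ) + min (v.ord (δ π)) (L : WithTop ℤ) := by
      rw [← min_add_add_left]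
      refine le_min ?_ ?_
      · refine le_trans (min_le_left _ _) ?_
        refine le_trans (le_of_eq (zero_add _).symm) (add_le_add ?_ le_rfl)
        exact_mod_cast (zero_le_one : (0 : ℤ) ≤ 1)
      · refine le_trans (min_le_right _ _) (le_of_eq ?_)
        rw [← WithTop.coe_add, add_comm]
    exact le_trans h4 (add_le_add le_rfl h2)
  · rw [AddValuation.map_mul]
    refine le_trans (min_le_left _ _) ?_
    exact le_trans (le_of_eq (zero_add _).symm) (add_le_add hu1 le_rfl)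

theorem loc_all [IsCurveField k E] (δ : Derivation k E E) (v : Place k E) {π : E} (hπ0 : π ≠ 0)
    (hπ : v.oz π = 1) (M : ℤ) (hM : ∀ u : E, 0 ≤ v.ord u → ((-M : ℤ) : WithTop ℤ) ≤ v.ord (δ u))
    (n : ℕ) :
    ∀ u : E, 0 ≤ v.ord u → min (v.ord (δ π)) ((-M + n : ℤ) : WithTop ℤ) ≤ v.ord (δ u) := by
  induction n with
  | zero =>
    intro u hu
    refine le_trans (min_le_right _ _) ?_
    simpa using hM u hu
  | succ n ih =>
    have h := loc_step δ v hπ0 hπ _ ih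
    have h2 : (-M + (n : ℤ) + 1 : ℤ) = -M + ((n + 1 : ℕ) : ℤ) := by push_cast; ring
    rw [h2] at h
    exact h

/-- The derivative of the uniformizer is nonzero and its order is a bound on the valuation ring. -/
theorem loc_bound [IsCurveField k E] (δ : Derivation k E E) (v : Place k E) {π : E} (hπ0 : π ≠ 0)
    (hπ : v.oz π = 1) (M : ℤ) (hM : ∀ u : E, 0 ≤ v.ord u → ((-M : ℤ) : WithTop ℤ) ≤ v.ord (δ u))
    {t : E} (ht : δ t ≠ 0) :
    δ π ≠ 0 ∧ ∀ u : E, 0 ≤ v.ord u → v.ord (δ π) ≤ v.ord (δ u) := by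
  have hall := loc_all δ v hπ0 hπ M hM
  have h1 : δ π ≠ 0 := by
    intro h0
    have h2 : ∀ u : E, 0 ≤ v.ord u → δ u = 0 := by
      intro u hu
      by_contra hne
      have h3 := hall (v.oz (δ u) + M + 1).toNat u hu
      rw [h0, AddValuation.map_zero, min_eq_right le_top, v.ord_eq hne, WithTop.coe_le_coe] at h3
      have h4 := Int.self_le_toNat (v.oz (δ u) + M + 1)
      omega
    by_cases ht0 : t = 0
    · rw [ht0, map_zero] at ht
      exact ht rfl
    · rcases le_or_gt 0 (v.oz t) with h3 | h3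
      · exact ht (h2 t ((v.nonneg_iff ht0).2 h3))
      · have h4 : δ t⁻¹ = 0 := by
          refine h2 _ ((v.nonneg_iff (inv_ne_zero ht0)).2 ?_)
          rw [v.oz_inv ht0]
          omega
        have h5 := Derivation.leibniz_inv δ t⁻¹
        rw [inv_inv, h4, smul_zero] at h5
        exact ht h5
  refine ⟨h1, fun u hu => ?_⟩
  have h3 := hall (v.oz (δ π) + M).toNat u hu
  refine le_trans (le_min le_rfl ?_) h3
  rw [v.ord_eq h1, WithTop.coe_le_coe]
  have h4 := Int.self_le_toNat (v.oz (δ π) + M)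
  omega

theorem loc_int (v : Place k E) (j : ℤ) : 0 ≤ v.ord (j : E) := by
  have h := v.const (j : k)
  rwa [map_intCast] at h

/-- The product rule at a uniformizer. -/
theorem loc_split (δ : Derivation k E E) (v : Place k E) {π : E} (hπ0 : π ≠ 0)
    (hπ : v.oz π = 1) {g : E} (hg : g ≠ 0) : ∃ w : E, w ≠ 0 ∧ v.ord w = 0 ∧
      δ g = ((v.oz g : ℤ) : E) * (π ^ (v.oz g - 1) * (w * δ π)) + π ^ (v.oz g) * δ w := by
  have hw0 : π ^ (-(v.oz g)) * g ≠ 0 := mul_ne_zero (zpow_ne_zero _ hπ0) hg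
  refine ⟨π ^ (-(v.oz g)) * g, hw0, ?_, ?_⟩
  · rw [v.ord_eq hw0, v.oz_mul (zpow_ne_zero _ hπ0) hg, v.oz_zpow hπ0, hπ]
    have h : -(v.oz g) * 1 + v.oz g = 0 := by ring
    rw [h]
    rfl
  · have h1 : g = π ^ (v.oz g) * (π ^ (-(v.oz g)) * g) := by
      rw [← mul_assoc, ← zpow_add₀ hπ0, add_neg_cancel, zpow_zero, one_mul]
    have h2 : δ g = δ (π ^ (v.oz g) * (π ^ (-(v.oz g)) * g)) := congrArg δ h1
    rw [h2, Derivation.leibniz, Derivation.leibniz_zpow, smul_eq_mul, smul_eq_mul, smul_eq_mul,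
      zsmul_eq_mul]
    ring

theorem loc_le [IsCurveField k E] (δ : Derivation k E E) (v : Place k E) {π : E} (hπ0 : π ≠ 0)
    (hπ : v.oz π = 1) (hδ : δ π ≠ 0)
    (hb : ∀ u : E, 0 ≤ v.ord u → v.ord (δ π) ≤ v.ord (δ u)) {g : E} (hg : g ≠ 0) :
    ((v.oz g - 1 + v.oz (δ π) : ℤ) : WithTop ℤ) ≤ v.ord (δ g) := by
  obtain ⟨w, hw0, hw, he⟩ := loc_split δ v hπ0 hπ hg
  rw [he]
  refine le_trans (le_min ?_ ?_) (v.ord.map_add _ _)
  · rw [AddValuation.map_mul, AddValuation.map_mul, AddValuation.map_mul, loc_zpow v hπ0 hπ, hw,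
      zero_add, v.ord_eq hδ, ← WithTop.coe_add]
    exact le_trans (le_of_eq (zero_add _).symm) (add_le_add (loc_int v _) le_rfl)
  · rw [AddValuation.map_mul, loc_zpow v hπ0 hπ]
    have h1 := hb w hw.ge
    rw [v.ord_eq hδ] at h1
    refine le_trans ?_ (add_le_add le_rfl h1)
    rw [← WithTop.coe_add, WithTop.coe_le_coe]
    omega

theorem loc_eq [IsCurveField k E] (δ : Derivation k E E) (v : Place k E) {π : E} (hπ0 : π ≠ 0)
    (hπ : v.oz π = 1) (hδ : δ π ≠ 0)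
    (hb : ∀ u : E, 0 ≤ v.ord u → v.ord (δ π) ≤ v.ord (δ u)) {t : E} (ht : t ≠ 0)
    (he : ((v.oz t : ℤ) : k) ≠ 0) :
    v.ord (δ t) = ((v.oz t - 1 + v.oz (δ π) : ℤ) : WithTop ℤ) := by
  obtain ⟨w, hw0, hw, hs⟩ := loc_split δ v hπ0 hπ ht
  have h1 : v.ord (((v.oz t : ℤ) : E) * (π ^ (v.oz t - 1) * (w * δ π))) =
      ((v.oz t - 1 + v.oz (δ π) : ℤ) : WithTop ℤ) := by
    have h2 : v.ord ((v.oz t : ℤ) : E) = 0 := by
      have h3 := v.ord_const he
      rwa [map_intCast] at h3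
    rw [AddValuation.map_mul, AddValuation.map_mul, AddValuation.map_mul, loc_zpow v hπ0 hπ, hw,
      zero_add, v.ord_eq hδ, ← WithTop.coe_add, h2, zero_add]
  rw [hs, AddValuation.map_add_eq_of_lt_left, h1]
  rw [h1, AddValuation.map_mul, loc_zpow v hπ0 hπ]
  have h2 := hb w hw.ge
  rw [v.ord_eq hδ] at h2
  refine lt_of_lt_of_le ?_ (add_le_add le_rfl h2)
  rw [← WithTop.coe_add, WithTop.coe_lt_coe]
  omega

/-- The local inequality. -/
theorem tLoc (h : SBd) : SLoc := by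
  intro k E _ _ _ _ _ x δ hS v t he ht g hg
  obtain ⟨M, hM⟩ := h k E x δ hS δ v
  obtain ⟨π, hπ1⟩ := v.exists_unif
  have hπ0 : π ≠ 0 := by
    rintro rfl
    rw [AddValuation.map_zero] at hπ1
    exact WithTop.top_ne_one hπ1
  have hπ : v.oz π = 1 := v.oz_eq (by rw [hπ1]; rfl)
  obtain ⟨hδ, hb⟩ := loc_bound δ v hπ0 hπ M hM ht
  have ht0 : t ≠ 0 := by
    rintro rfl
    exact ht (map_zero δ)
  have hg0 : g ≠ 0 := by
    rintro rfl
    exact hg (map_zero δ)
  have h1 := loc_le δ v hπ0 hπ hδ hb hg0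
  have h2 := v.oz_eq (loc_eq δ v hπ0 hπ hδ hb ht0 he)
  rw [v.ord_eq hg, WithTop.coe_le_coe] at h1
  omega

end Pool.Agent.Lib.MP_16285c_agZ.Hru
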