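import Pool.Agent.Lib.MP_16285c_agZ.Hru.Spec

/-!
# The product formula (S3)
-/

set_option autoImplicit false

namespace Pool.Agent.Lib.MP_16285c_agZ.Hru

open MP7Z
open scoped IntermediateField

namespace PrdAux

variable {k E : Type} [Field k] [IsAlgClosed k] [Field E] [Algebra k E]

theorem oz_zero (v : Place k E) : v.oz (0 : E) = 0 := by
  unfold Place.oz
  simp

theorem oz_mul (v : Place k E) {f g : E} (hf : f ≠ 0) (hg : g ≠ 0) :
    v.oz (f * g) = v.oz f + v.oz g := v.pord_mul hf hg

theorem oz_inv (v : Place k E) {f : E} (hf : f ≠ 0) : v.oz f⁻¹ = -v.oz f := v.pord_inv hf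

theorem adjoin_inv (h : E) : (k⟮h⁻¹⟯ : IntermediateField k E) = k⟮h⟯ := by
  apply le_antisymm
  · rw [IntermediateField.adjoin_simple_le_iff]
    exact inv_mem (IntermediateField.mem_adjoin_simple_self k h)
  · rw [IntermediateField.adjoin_simple_le_iff]
    have := inv_mem (IntermediateField.mem_adjoin_simple_self k h⁻¹)
    rwa [inv_inv] at this

variable [IsCurveField k E]

theorem supp {h : E} (h0 : h ≠ 0) : (Function.support fun v : Place k E => v.oz h).Finite := by
  refine (finite_ord_ne h0).subset ?_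
  intro v hv
  rw [Function.mem_support] at hv
  intro h1
  apply hv
  have h3 := v.ord_eq h0
  rw [h1] at h3
  exact (WithTop.coe_inj.1 h3.symm)

theorem supp_pos {h : E} (h0 : h ≠ 0) :
    (Function.support fun v : Place k E => max (v.oz h) 0).Finite := by
  refine (supp h0).subset ?_
  intro v hv
  rw [Function.mem_support] at hv ⊢
  intro h1
  apply hv
  rw [h1, max_self]

theorem supp_neg {h : E} (h0 : h ≠ 0) :
    (Function.support fun v : Place k E => max (-(v.oz h)) 0).Finite := by
  refine (supp h0).subset ?_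
  intro v hv
  rw [Function.mem_support] at hv ⊢
  intro h1
  apply hv
  rw [h1, neg_zero, max_self]

/-- the number of zeros -/
theorem zn_eq {h : E} (hs : Algebra.IsSeparable k⟮h⟯ E) (ht : Transcendental k h) :
    Zn k h = Module.finrank k⟮h⟯ E := by
  have h0 : h ≠ 0 := by
    rintro rfl
    exact ht isAlgebraic_zero
  obtain ⟨S, hS, hsum⟩ := sum_zeros (𝕜 := k) (E := E) (x := h) ht
  have hpos : ∀ v : Place k E, v ∈ S ↔ 0 < v.oz h := by
    intro v
    rw [hS]
    exact (v.lt_pord_iff h0 0).symm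
  rw [← hsum]
  unfold Zn
  rw [finsum_eq_sum_of_support_subset _ (s := S) ?_]
  · refine Finset.sum_congr rfl fun v hv => ?_
    exact max_eq_left ((hpos v).1 hv).le
  · intro v hv
    rw [Function.mem_support] at hv
    rw [Finset.mem_coe, hpos]
    by_contra hn
    exact hv (max_eq_right (not_lt.1 hn))

theorem pn_zn {h : E} (h0 : h ≠ 0) : Pn k h = Zn k h⁻¹ := by
  unfold Pn Zn
  exact finsum_congr fun v => by rw [oz_inv v h0]

theorem both (hH : SSepH) {x : E} {δ : Derivation k E E} (hx : Sit k E x δ) {h : E}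
    (hd : δ h ≠ 0) : Zn k h = Module.finrank k⟮h⟯ E ∧ Pn k h = Module.finrank k⟮h⟯ E := by
  have h0 : h ≠ 0 := by
    rintro rfl
    exact hd (map_zero δ)
  obtain ⟨h1, h2⟩ := hH k E x δ hx h hd
  have hd' : δ h⁻¹ ≠ 0 := by
    rw [Derivation.leibniz_inv]
    exact smul_ne_zero (neg_ne_zero.2 (pow_ne_zero _ (inv_ne_zero h0))) hd
  obtain ⟨h3, h4⟩ := hH k E x δ hx h⁻¹ hd'
  refine ⟨zn_eq h2 h1, ?_⟩
  rw [pn_zn h0, zn_eq h4 h3, adjoin_inv]

theorem diff {h : E} (h0 : h ≠ 0) : Zn k h - Pn k h = ∑ᶠ v : Place k E, v.oz h := by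
  unfold Zn Pn
  rw [← finsum_sub_distrib (supp_pos h0) (supp_neg h0)]
  refine finsum_congr fun v => ?_
  rcases le_total 0 (v.oz h) with h1 | h1
  · rw [max_eq_left h1, max_eq_right (by omega), sub_zero]
  · rw [max_eq_right h1, max_eq_left (by omega)]
    ring

theorem prod1 (hH : SSepH) {x : E} {δ : Derivation k E E} (hx : Sit k E x δ) {h : E}
    (hd : δ h ≠ 0) : ∑ᶠ v : Place k E, v.oz h = 0 := by
  have h0 : h ≠ 0 := by
    rintro rfl
    exact hd (map_zero δ)
  obtain ⟨h1, h2⟩ := both hH hx hd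
  rw [← diff h0, h1, h2, sub_self]

theorem prod (hH : SSepH) {x : E} {δ : Derivation k E E} (hx : Sit k E x δ) {h : E}
    (h0 : h ≠ 0) : ∑ᶠ v : Place k E, v.oz h = 0 := by
  by_cases hd : δ h = 0
  · have hx1 : δ x ≠ 0 := by rw [hx.one]; exact one_ne_zero
    have hx0 : x ≠ 0 := by
      rintro rfl
      exact hx1 (map_zero δ)
    have hd2 : δ (h * x) ≠ 0 := by
      rw [Derivation.leibniz, hd, hx.one, smul_zero, add_zero, smul_eq_mul, mul_one]
      exact h0
    have e1 := prod1 hH hx hd2
    have e2 := prod1 hH hx hx1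
    have e3 : ∑ᶠ v : Place k E, v.oz (h * x) =
        ∑ᶠ v : Place k E, v.oz h + ∑ᶠ v : Place k E, v.oz x := by
      rw [← finsum_add_distrib (supp h0) (supp hx0)]
      exact finsum_congr fun v => oz_mul v h0 hx0
    rw [e1, e2, add_zero] at e3
    exact e3.symm
  · exact prod1 hH hx hd

end PrdAux

open PrdAux in
theorem tPrd : SSepH → SPrd := by
  intro hH k E _ _ _ _ _ x δ hx
  have hx1 : δ x ≠ 0 := by rw [hx.one]; exact one_ne_zero
  have hx0 : x ≠ 0 := by
    rintro rfl
    exact hx1 (map_zero δ)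
  obtain ⟨-, b2⟩ := both hH hx hx1
  refine ⟨fun h => ?_, b2, fun v c => ?_, fun v => ?_⟩
  · by_cases h0 : h = 0
    · subst h0
      unfold Zn Pn
      exact finsum_congr fun v => by rw [oz_zero, neg_zero]
    · have h1 := diff (k := k) h0
      rw [prod hH hx h0] at h1
      omega
  · have hc : δ (x - algebraMap k E c) ≠ 0 := by
      rw [map_sub, Derivation.map_algebraMap, sub_zero]
      exact hx1
    have hc0 : x - algebraMap k E c ≠ 0 := by
      intro h
      rw [h] at hc
      exact hc (map_zero δ)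
    obtain ⟨b1, -⟩ := both hH hx hc
    rw [adjoin_sub_const] at b1
    rw [← b1]
    refine (le_max_left _ 0).trans ?_
    exact single_le_finsum v (supp_pos hc0) fun _ => le_max_right _ _
  · rw [← b2]
    refine (le_max_left _ 0).trans ?_
    exact single_le_finsum v (supp_neg hx0) fun _ => le_max_right _ _

end Pool.Agent.Lib.MP_16285c_agZ.Hru
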