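import Pool.Agent.Lib.MP_16285c_agZ.Hru.Spec
import Pool.Agent.Lib.MP_7f581e_Z.Crv.Places

/-!
# Frobenius points of plane maps: residues
-/

set_option autoImplicit false

namespace Pool.Agent.Lib.MP_16285c_agZ.Hru

open MP7Z

/-- (S8) Residues. -/
theorem tRes : SRes := by
  intro k E _ _ _ _ _ x y v hx hy
  obtain ⟨a0, h0⟩ := MP7Z.exists_const v hx
  obtain ⟨a1, h1⟩ := MP7Z.exists_const v hy
  have key : ∀ A : MvPolynomial (Fin 2) k, 0 ≤ v.ord (MvPolynomial.aeval ![x, y] A) ∧
      0 < v.ord (MvPolynomial.aeval ![x, y] A -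
        algebraMap k E (MvPolynomial.eval ![a0, a1] A)) := by
    intro A
    induction A using MvPolynomial.induction_on with
    | C c =>
      rw [MvPolynomial.aeval_C, MvPolynomial.eval_C, sub_self, AddValuation.map_zero]
      exact ⟨v.const c, WithTop.coe_lt_top 0⟩
    | add p q hp hq =>
      have e1 : MvPolynomial.aeval ![x, y] (p + q) =
          MvPolynomial.aeval ![x, y] p + MvPolynomial.aeval ![x, y] q := map_add _ _ _
      have e2 : algebraMap k E (MvPolynomial.eval ![a0, a1] (p + q)) =
          algebraMap k E (MvPolynomial.eval ![a0, a1] p) +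
            algebraMap k E (MvPolynomial.eval ![a0, a1] q) := by
        rw [← map_add, map_add]
      rw [e1, e2]
      refine ⟨le_trans (le_min hp.1 hq.1) (v.ord.map_add _ _), ?_⟩
      have e : MvPolynomial.aeval ![x, y] p + MvPolynomial.aeval ![x, y] q -
          (algebraMap k E (MvPolynomial.eval ![a0, a1] p) +
            algebraMap k E (MvPolynomial.eval ![a0, a1] q)) =
          (MvPolynomial.aeval ![x, y] p - algebraMap k E (MvPolynomial.eval ![a0, a1] p)) +
          (MvPolynomial.aeval ![x, y] q - algebraMap k E (MvPolynomial.eval ![a0, a1] q)) := by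
        ring
      rw [e]
      exact lt_of_lt_of_le (lt_min hp.2 hq.2) (v.ord.map_add _ _)
    | mul_X p i hp =>
      have hi : 0 ≤ v.ord (![x, y] i) ∧ 0 < v.ord (![x, y] i - algebraMap k E (![a0, a1] i)) := by
        fin_cases i
        · exact ⟨hx, h0⟩
        · exact ⟨hy, h1⟩
      have e1 : MvPolynomial.aeval ![x, y] (p * MvPolynomial.X i) =
          MvPolynomial.aeval ![x, y] p * ![x, y] i := by
        rw [map_mul, MvPolynomial.aeval_X]
      have e2 : algebraMap k E (MvPolynomial.eval ![a0, a1] (p * MvPolynomial.X i)) =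
          algebraMap k E (MvPolynomial.eval ![a0, a1] p) * algebraMap k E (![a0, a1] i) := by
        rw [← map_mul, MvPolynomial.eval_mul, MvPolynomial.eval_X]
      rw [e1, e2]
      refine ⟨?_, ?_⟩
      · rw [AddValuation.map_mul]
        exact add_nonneg hp.1 hi.1
      have e : MvPolynomial.aeval ![x, y] p * ![x, y] i -
          algebraMap k E (MvPolynomial.eval ![a0, a1] p) * algebraMap k E (![a0, a1] i) =
          (MvPolynomial.aeval ![x, y] p - algebraMap k E (MvPolynomial.eval ![a0, a1] p)) *
            ![x, y] i + algebraMap k E (MvPolynomial.eval ![a0, a1] p) *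
            (![x, y] i - algebraMap k E (![a0, a1] i)) := by
        ring
      rw [e]
      refine lt_of_lt_of_le (lt_min ?_ ?_) (v.ord.map_add _ _)
      · rw [AddValuation.map_mul]
        exact add_pos_of_pos_of_nonneg hp.2 hi.1
      · rw [AddValuation.map_mul, add_comm]
        exact add_pos_of_pos_of_nonneg hi.2 (v.const _)
  refine ⟨![a0, a1], fun A => ⟨fun hA => ?_, fun hA => ?_⟩⟩
  · have h2 := (key A).2
    rwa [hA, map_zero, sub_zero] at h2
  · by_contra hne
    have h2 := v.ord_const hne
    have e : algebraMap k E (MvPolynomial.eval ![a0, a1] A) =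
        MvPolynomial.aeval ![x, y] A + -(MvPolynomial.aeval ![x, y] A -
          algebraMap k E (MvPolynomial.eval ![a0, a1] A)) := by
      ring
    rw [e] at h2
    have h3 : 0 < v.ord (MvPolynomial.aeval ![x, y] A + -(MvPolynomial.aeval ![x, y] A -
        algebraMap k E (MvPolynomial.eval ![a0, a1] A))) := by
      refine lt_of_lt_of_le (lt_min hA ?_) (v.ord.map_add _ _)
      rw [AddValuation.map_neg]
      exact (key A).2
    rw [h2] at h3
    exact lt_irrefl _ h3

end Pool.Agent.Lib.MP_16285c_agZ.Hru
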