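import Pool.Agent.Lib.MP_16285c_agZ.Hru.Spec
import Mathlib.RingTheory.Unramified.Field
import Mathlib.RingTheory.Kaehler.Basic

/-!
# (S2) An element with nonzero derivative is a separating element
-/

set_option autoImplicit false

namespace Pool.Agent.Lib.MP_16285c_agZ.Hru

open MP7Z
open scoped IntermediateField

namespace SepHM

/-- A derivation of a separable extension is zero. -/
theorem van0 {K E M : Type} [Field K] [Field E] [Algebra K E] [AddCommGroup M] [Module K M]
    [Module E M] [IsScalarTower K E M] (hsep : Algebra.IsSeparable K E) (D : Derivation K E M)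
    (u : E) : D u = 0 := by
  have h1 : Algebra.FormallyUnramified K E := Algebra.FormallyUnramified.of_isSeparable _ _
  have h2 : Subsingleton (Ω[E⁄K]) := Algebra.FormallyUnramified.subsingleton_kaehlerDifferential
  have h3 := D.liftKaehlerDifferential_comp_D u
  rw [Subsingleton.elim (KaehlerDifferential.D K E u) 0, map_zero] at h3
  exact h3.symm

/-- A derivation over `k` which vanishes at a separating element is zero. -/
theorem van {k E M : Type} [Field k] [Field E] [Algebra k E] [AddCommGroup M] [Module k M]
    [Module E M] (D : Derivation k E M) (x : E) (hx : D x = 0)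
    (hsep : Algebra.IsSeparable k⟮x⟯ E) (u : E) : D u = 0 := by
  -- the constants of `D`
  let C : IntermediateField k E :=
    { carrier := {v | D v = 0}
      mul_mem' := by
        intro a b ha hb
        change D (a * b) = 0
        rw [D.leibniz, show D b = 0 from hb, show D a = 0 from ha, smul_zero, smul_zero, add_zero]
      one_mem' := D.map_one_eq_zero
      add_mem' := by
        intro a b ha hb
        change D (a + b) = 0
        rw [map_add, show D b = 0 from hb, show D a = 0 from ha, add_zero]
      zero_mem' := map_zero D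
      algebraMap_mem' := fun c => D.map_algebraMap c
      inv_mem' := by
        intro a ha
        change D a⁻¹ = 0
        rw [D.leibniz_inv, show D a = 0 from ha, smul_zero] }
  have hC : k⟮x⟯ ≤ C := by
    rw [IntermediateField.adjoin_simple_le_iff]
    exact hx
  let hM : Module k⟮x⟯ M := Module.compHom M (algebraMap k⟮x⟯ E)
  have hT : IsScalarTower k⟮x⟯ E M := ⟨fun c e m => by
    rw [Algebra.smul_def, mul_smul]
    rfl⟩
  let D' : Derivation k⟮x⟯ E M := Derivation.mk'
    { toFun := D
      map_add' := map_add D
      map_smul' := by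
        intro c v
        rw [Algebra.smul_def, D.leibniz, show D (algebraMap k⟮x⟯ E c) = 0 from hC c.2, smul_zero,
          add_zero]
        rfl } fun a b => D.leibniz a b
  exact @van0 k⟮x⟯ E M _ _ _ _ hM _ hT hsep D' u

end SepHM

open SepHM in
theorem tSepH : SSepH := by
  intro k E _ _ _ _ _ x δ hS h hh
  have htr : Transcendental k h := by
    apply transcendental_of
    rintro c rfl
    exact hh (δ.map_algebraMap c)
  refine ⟨htr, ?_⟩
  have hfin : Module.Finite k⟮h⟯ E := finite_adjoin htr
  let d : Derivation k E (Ω[E⁄k⟮h⟯]) := (KaehlerDifferential.D k⟮h⟯ E).restrictScalars k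
  let D' : Derivation k E (Ω[E⁄k⟮h⟯]) :=
    d - (LinearMap.toSpanSingleton E (Ω[E⁄k⟮h⟯]) (d x)).compDer δ
  have hD : ∀ u, D' u = d u - δ u • d x := fun u => rfl
  have hx : D' x = 0 := by
    rw [hD, hS.one, one_smul, sub_self]
  have hv : ∀ u, d u = δ u • d x := fun u => by
    have := van D' x hx hS.sep u
    rw [hD] at this
    exact sub_eq_zero.1 this
  have hdh : d h = 0 :=
    (KaehlerDifferential.D k⟮h⟯ E).map_algebraMap
      (⟨h, IntermediateField.mem_adjoin_simple_self k h⟩ : k⟮h⟯)
  have hdx : d x = 0 := by
    have h1 := hv h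
    rw [hdh] at h1
    exact (smul_eq_zero.1 h1.symm).resolve_left hh
  have hd : ∀ u, KaehlerDifferential.D k⟮h⟯ E u = 0 := fun u => by
    have h1 := hv u
    rw [hdx, smul_zero] at h1
    exact h1
  have hsub : Subsingleton (Ω[E⁄k⟮h⟯]) := by
    have h1 := KaehlerDifferential.span_range_derivation k⟮h⟯ E
    have h2 : Set.range (KaehlerDifferential.D k⟮h⟯ E) ⊆ {0} := by
      rintro _ ⟨u, rfl⟩
      exact hd u
    have h3 : Submodule.span E (Set.range (KaehlerDifferential.D k⟮h⟯ E)) = ⊥ := by
      rw [Submodule.span_eq_bot]
      intro y hy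
      exact h2 hy
    rw [h3] at h1
    exact (Submodule.subsingleton_iff E).1 (subsingleton_of_bot_eq_top h1)
  have hunr : Algebra.FormallyUnramified k⟮h⟯ E := ⟨hsub⟩
  exact (Algebra.FormallyUnramified.iff_isSeparable k⟮h⟯ E).1 hunr

end Pool.Agent.Lib.MP_16285c_agZ.Hru
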