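import Pool.Agent.Lib.MP_16285c_agZ.Hru.Spec
import Pool.Agent.Lib.MP_16285c_ag.Count

/-!
# Frobenius points of plane maps: the case `f₀ ∈ k(x)` (S10)
-/

set_option autoImplicit false

namespace Pool.Agent.Lib.MP_16285c_agZ.Hru

open Pool.Agent.Lib.MP_16285c_ag (RM FrobPt Wr CountProp countP)
open MvPolynomial

section sp

variable {k : Type} [Field k]

/-- Specialisation of `X 0`. -/
private noncomputable def sp (u : k) : MvPolynomial (Fin 2) k →ₐ[k] Polynomial k :=
  aeval ![Polynomial.C u, Polynomial.X]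

/-- Specialisation of `X 1`. -/
private noncomputable def sq (v : k) : MvPolynomial (Fin 2) k →ₐ[k] Polynomial k :=
  aeval ![Polynomial.X, Polynomial.C v]

private theorem sp_eval (u v : k) (A : MvPolynomial (Fin 2) k) :
    (sp u A).eval v = eval ![u, v] A := by
  have h : (Polynomial.evalRingHom v).comp (sp u).toRingHom = eval ![u, v] := by
    refine MvPolynomial.ringHom_ext (fun a => ?_) fun i => ?_
    · simp [sp]
    · fin_cases i <;> simp [sp]
  exact congrArg (fun φ : MvPolynomial (Fin 2) k →+* k => φ A) h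

private theorem sq_eval (u v : k) (A : MvPolynomial (Fin 2) k) :
    (sq v A).eval u = eval ![u, v] A := by
  have h : (Polynomial.evalRingHom u).comp (sq v).toRingHom = eval ![u, v] := by
    refine MvPolynomial.ringHom_ext (fun a => ?_) fun i => ?_
    · simp [sq]
    · fin_cases i <;> simp [sq]
  exact congrArg (fun φ : MvPolynomial (Fin 2) k →+* k => φ A) h

private theorem sp_deriv (u : k) (A : MvPolynomial (Fin 2) k) :
    Polynomial.derivative (sp u A) = sp u (pderiv 1 A) := by
  induction A using MvPolynomial.induction_on with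
  | C a => simp [sp]
  | add p q hp hq => rw [map_add, map_add, map_add, map_add, hp, hq]
  | mul_X p i hp =>
    rw [map_mul, Polynomial.derivative_mul, hp, pderiv_mul, map_add, map_mul, map_mul]
    fin_cases i
    · have h : pderiv (1 : Fin 2) (X 0 : MvPolynomial (Fin 2) k) = 0 :=
        pderiv_X_of_ne (by decide)
      simp [sp, h]
    · simp [sp]

private theorem sp_deg (u : k) (A : MvPolynomial (Fin 2) k) :
    (sp u A).natDegree ≤ A.totalDegree := by
  refine (aeval_natDegree_le (m := A.totalDegree) (n := 1) A le_rfl _ fun i => ?_).trans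
    (le_of_eq (mul_one _))
  fin_cases i
  · simp
  · simp

private theorem sp_ne [Infinite k] {A : MvPolynomial (Fin 2) k} (hA : A ≠ 0) :
    ∃ c : Polynomial k, c ≠ 0 ∧ ∀ u, c.eval u ≠ 0 → sp u A ≠ 0 := by
  obtain ⟨x, hx⟩ : ∃ x, eval x A ≠ 0 := by
    by_contra h
    push Not at h
    exact hA (MvPolynomial.funext fun x => by rw [h x, map_zero])
  have hx' : x = ![x 0, x 1] := by
    funext i
    fin_cases i <;> rfl
  refine ⟨sq (x 1) A, fun h => hx ?_, fun u hu h => hu ?_⟩
  · rw [hx', ← sq_eval, h, Polynomial.eval_zero]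
  · rw [sq_eval, ← sp_eval, h, Polynomial.eval_zero]

private theorem eval_aeval0 (u v : k) (N : Polynomial k) :
    eval ![u, v] (Polynomial.aeval (X 0) N) = N.eval u := by
  have h := Polynomial.aeval_algHom_apply (aeval (R := k) ![u, v])
    (X 0 : MvPolynomial (Fin 2) k) N
  rw [aeval_X] at h
  exact h.symm

end sp

/-- The case `f₀ ∈ k(x)`. -/
theorem tCaseA : SCaseA := by
  intro k _ _ p _ _ f g N D hN hD hden hjac b hb
  have : Infinite k := IsAlgClosed.instInfinite
  have h1 : pderiv (1 : Fin 2) (X 0 : MvPolynomial (Fin 2) k) = 0 := pderiv_X_of_ne (by decide)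
  have hW : wj f 0 1 = 0 := by
    rw [wj, hN, hD, pderiv_mul, pderiv_mul, Derivation.map_aeval, Derivation.map_aeval, h1,
      smul_zero, smul_zero]
    ring
  have hW0 : wj f 0 0 = - (g ^ 2 * Polynomial.aeval (X 0) (Wr N D)) := by
    rw [wj, hN, hD, pderiv_mul, pderiv_mul, Derivation.map_aeval, Derivation.map_aeval,
      pderiv_X_self, Wr, map_sub, map_mul, map_mul, smul_eq_mul, smul_eq_mul]
    ring
  have hj : jac f = wj f 0 0 * wj f 1 1 := by rw [jac, hW, zero_mul, sub_zero]
  rw [hj] at hjac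
  have hw1 : wj f 1 1 ≠ 0 := right_ne_zero_of_mul hjac
  have hWr : Wr N D ≠ 0 := by
    intro h
    refine left_ne_zero_of_mul hjac ?_
    rw [hW0, h, map_zero, mul_zero, neg_zero]
  have hβ : b * f.den 0 * f.den 1 * wj f 1 1 ≠ 0 :=
    mul_ne_zero (mul_ne_zero (mul_ne_zero hb (hden 0)) (hden 1)) hw1
  obtain ⟨c, hc, hc'⟩ := sp_ne hβ
  set d := N.natDegree + D.natDegree + (f.num 1).totalDegree + (f.den 1).totalDegree with hd
  set n := (b * f.den 0 * f.den 1 * wj f 1 1).totalDegree with hn
  refine ⟨2 * d + c.natDegree + n + 1, fun s hs hB => ?_⟩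
  obtain ⟨u, hu1, hu2⟩ := countP k p N D c d s hs (by omega) (by omega) hWr hc (by omega)
  have hsp := hc' u hu2
  have hsw : sp u (wj f 1 1) ≠ 0 := by
    intro h
    refine hsp ?_
    rw [map_mul, h, mul_zero]
  have hWr1 : Wr (sp u (f.num 1)) (sp u (f.den 1)) ≠ 0 := by
    intro h
    refine hsw ?_
    rw [Wr, sp_deriv, sp_deriv, ← map_mul, ← map_mul, ← map_sub] at h
    have e : wj f 1 1 = - (f.num 1 * pderiv 1 (f.den 1) - pderiv 1 (f.num 1) * f.den 1) := by
      rw [wj]
      ring
    rw [e, map_neg, h, neg_zero]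
  obtain ⟨v, hv1, hv2⟩ := countP k p (sp u (f.num 1)) (sp u (f.den 1))
    (sp u (b * f.den 0 * f.den 1 * wj f 1 1)) d s hs ((sp_deg u _).trans (by omega))
    ((sp_deg u _).trans (by omega)) hWr1 hsp (by
      have := sp_deg u (b * f.den 0 * f.den 1 * wj f 1 1)
      omega)
  rw [sp_eval, map_mul, map_mul, map_mul] at hv2
  rw [sp_eval, sp_eval] at hv1
  have hb' := left_ne_zero_of_mul (left_ne_zero_of_mul (left_ne_zero_of_mul hv2))
  have h0' := right_ne_zero_of_mul (left_ne_zero_of_mul (left_ne_zero_of_mul hv2))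
  have h1' := right_ne_zero_of_mul (left_ne_zero_of_mul hv2)
  refine ⟨![u, v], fun i => ?_, hb'⟩
  fin_cases i
  · refine ⟨h0', ?_⟩
    change u ^ (p ^ s) * eval ![u, v] (f.den 0) = eval ![u, v] (f.num 0)
    rw [hN, hD, map_mul, map_mul, eval_aeval0, eval_aeval0, ← hu1]
    ring
  · exact ⟨h1', hv1⟩

end Pool.Agent.Lib.MP_16285c_agZ.Hru
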