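import Pool.Agent.Lib.MP_16285c_agZ.Hru.Spec

/-!
# The case `f₀ ∉ k(x)`
-/

set_option autoImplicit false

namespace Pool.Agent.Lib.MP_16285c_agZ.Hru

open MP7Z
open scoped IntermediateField
open Pool.Agent.Lib.MP_16285c_ag (RM FrobPt)

section aux

variable {k : Type} [Field k]

theorem cb_deg_mul {A B : MvPolynomial (Fin 2) k} (hA : A ≠ 0) (hB : B ≠ 0) :
    (A * B).degreeOf 1 = A.degreeOf 1 + B.degreeOf 1 :=
  MvPolynomial.degreeOf_mul_eq hA hB

theorem cb_deg_dvd {P A : MvPolynomial (Fin 2) k} (h : P ∣ A) (hA : A ≠ 0) :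
    P.degreeOf 1 ≤ A.degreeOf 1 := by
  obtain ⟨C, rfl⟩ := h
  have hP : P ≠ 0 := fun h => hA (by rw [h, zero_mul])
  have hC : C ≠ 0 := fun h => hA (by rw [h, mul_zero])
  rw [cb_deg_mul hP hC]
  omega

theorem cb_deg_unit {u : MvPolynomial (Fin 2) k} (h : IsUnit u) : u.degreeOf 1 = 0 := by
  have h1 := cb_deg_dvd (h.dvd : u ∣ 1) one_ne_zero
  have h2 : (1 : MvPolynomial (Fin 2) k).degreeOf 1 = 0 := by
    rw [← MvPolynomial.C_1, MvPolynomial.degreeOf_C]
  omega

/-- An irreducible factor which involves the second variable. -/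
theorem cb_factor (F : MvPolynomial (Fin 2) k) :
    F ≠ 0 → 0 < F.degreeOf 1 → ∃ P, Irreducible P ∧ 0 < P.degreeOf 1 ∧ P ∣ F := by
  induction F using UniqueFactorizationMonoid.induction_on_prime with
  | h₁ => exact fun h => absurd rfl h
  | h₂ u hu => exact fun _ h => absurd (cb_deg_unit hu) (by omega)
  | h₃ a p ha hp ih =>
    intro _ h
    rw [cb_deg_mul hp.ne_zero ha] at h
    by_cases h1 : 0 < p.degreeOf 1
    · exact ⟨p, hp.irreducible, h1, dvd_mul_right _ _⟩
    · obtain ⟨P, h2, h3, h4⟩ := ih ha (by omega)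
      exact ⟨P, h2, h3, h4.mul_left _⟩

theorem cb_deg_X0 (n : ℕ) : ((MvPolynomial.X 0 : MvPolynomial (Fin 2) k) ^ n).degreeOf 1 = 0 := by
  induction n with
  | zero => rw [pow_zero, ← MvPolynomial.C_1, MvPolynomial.degreeOf_C]
  | succ n ih =>
    rw [pow_succ, cb_deg_mul (pow_ne_zero _ (MvPolynomial.X_ne_zero _)) (MvPolynomial.X_ne_zero _),
      ih, MvPolynomial.degreeOf_X]
    simp

/-- The degree in the second variable of `N - X 0 ^ q * D`. -/
theorem cb_degF_le (N D : MvPolynomial (Fin 2) k) (d q : ℕ) (hN : N.totalDegree ≤ d)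
    (hD : D.totalDegree ≤ d) : (N - MvPolynomial.X 0 ^ q * D).degreeOf 1 ≤ d := by
  refine (MvPolynomial.degreeOf_sub_le _ _ _).trans (max_le ?_ ?_)
  · exact (MvPolynomial.degreeOf_le_totalDegree _ _).trans hN
  · refine (MvPolynomial.degreeOf_mul_le _ _ _).trans ?_
    rw [cb_deg_X0, zero_add]
    exact (MvPolynomial.degreeOf_le_totalDegree _ _).trans hD

theorem cb_exists_mon {A : MvPolynomial (Fin 2) k} (h : 0 < A.degreeOf 1) :
    ∃ m : Fin 2 →₀ ℕ, A.coeff m ≠ 0 ∧ 0 < m 1 := by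
  by_contra hc
  push Not at hc
  have : A.degreeOf 1 ≤ 0 := by
    rw [MvPolynomial.degreeOf_le_iff]
    intro m hm
    exact hc m (MvPolynomial.mem_support_iff.1 hm)
  omega

theorem cb_mon_le {A : MvPolynomial (Fin 2) k} {m : Fin 2 →₀ ℕ} (h : A.coeff m ≠ 0) :
    m 0 ≤ A.totalDegree := by
  have h1 := MvPolynomial.le_degreeOf_of_mem_support (i := (0 : Fin 2)) (MvPolynomial.mem_support_iff.2 h)
  exact h1.trans (MvPolynomial.degreeOf_le_totalDegree _ _)

theorem cb_degF_pos (N D : MvPolynomial (Fin 2) k) (d q : ℕ) (hN : N.totalDegree ≤ d)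
    (_hD : D.totalDegree ≤ d) (hq : d < q) (h : 0 < N.degreeOf 1 ∨ 0 < D.degreeOf 1) :
    0 < (N - MvPolynomial.X 0 ^ q * D).degreeOf 1 := by
  have key : ∀ m : Fin 2 →₀ ℕ, 0 < m 1 → (N - MvPolynomial.X 0 ^ q * D).coeff m ≠ 0 →
      0 < (N - MvPolynomial.X 0 ^ q * D).degreeOf 1 := by
    intro m hm h1
    exact lt_of_lt_of_le hm (MvPolynomial.le_degreeOf_of_mem_support (i := (1 : Fin 2))
      (MvPolynomial.mem_support_iff.2 h1))
  have hX : (MvPolynomial.X 0 : MvPolynomial (Fin 2) k) ^ q =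
      MvPolynomial.monomial (Finsupp.single 0 q) 1 := by
    rw [MvPolynomial.X_pow_eq_monomial]
  rcases h with h | h
  · obtain ⟨m, h1, h2⟩ := cb_exists_mon h
    refine key m h2 ?_
    rw [MvPolynomial.coeff_sub, hX, MvPolynomial.coeff_monomial_mul', if_neg, sub_zero]
    · exact h1
    · intro h3
      have h4 := h3 0
      rw [Finsupp.single_eq_same] at h4
      have h5 := cb_mon_le h1
      omega
  · obtain ⟨m, h1, h2⟩ := cb_exists_mon h
    refine key (Finsupp.single 0 q + m) ?_ ?_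
    · rw [Finsupp.add_apply]
      omega
    · rw [MvPolynomial.coeff_sub, hX, MvPolynomial.coeff_monomial_mul]
      have h3 : N.coeff (Finsupp.single 0 q + m) = 0 := by
        by_contra h4
        have h5 := cb_mon_le h4
        rw [Finsupp.add_apply, Finsupp.single_eq_same] at h5
        omega
      rw [h3, one_mul, zero_sub]
      exact neg_ne_zero.2 h1

/-- An irreducible polynomial divides `N - X 0 ^ q * D` for at most one `q`. -/
theorem cb_bound (N D : MvPolynomial (Fin 2) k) (hr : IsRelPrime N D) (P : MvPolynomial (Fin 2) k) :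
    ∃ B : ℕ, Irreducible P → 0 < P.degreeOf 1 → ∀ q, B ≤ q →
      ¬ P ∣ N - MvPolynomial.X 0 ^ q * D := by
  by_cases h : ∃ q, P ∣ N - MvPolynomial.X 0 ^ q * D
  · obtain ⟨q0, h0⟩ := h
    refine ⟨q0 + 1, fun hi hd q hq h1 => ?_⟩
    have hp : Prime P := UniqueFactorizationMonoid.irreducible_iff_prime.1 hi
    obtain ⟨n, rfl⟩ : ∃ n, q = q0 + (n + 1) := ⟨q - q0 - 1, by omega⟩
    have h2 : P ∣ MvPolynomial.X 0 ^ q0 * (MvPolynomial.X 0 ^ (n + 1) - 1) * D := by
      have h3 := dvd_sub h0 h1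
      have h4 : N - MvPolynomial.X 0 ^ q0 * D - (N - MvPolynomial.X 0 ^ (q0 + (n + 1)) * D) =
          MvPolynomial.X 0 ^ q0 * (MvPolynomial.X 0 ^ (n + 1) - 1) * D := by ring
      rwa [h4] at h3
    have hX : (MvPolynomial.X 0 : MvPolynomial (Fin 2) k) ^ q0 ≠ 0 :=
      pow_ne_zero _ (MvPolynomial.X_ne_zero _)
    have hX1 : (MvPolynomial.X 0 : MvPolynomial (Fin 2) k) ^ (n + 1) - 1 ≠ 0 := by
      intro h5
      have h6 := congrArg (MvPolynomial.eval (0 : Fin 2 → k)) h5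
      simp at h6
    have hX1d : ((MvPolynomial.X 0 : MvPolynomial (Fin 2) k) ^ (n + 1) - 1).degreeOf 1 = 0 := by
      have h7 := MvPolynomial.degreeOf_sub_le (1 : Fin 2)
        ((MvPolynomial.X 0 : MvPolynomial (Fin 2) k) ^ (n + 1)) 1
      rw [cb_deg_X0, ← MvPolynomial.C_1, MvPolynomial.degreeOf_C, MvPolynomial.C_1] at h7
      simpa using h7
    rcases hp.dvd_or_dvd h2 with h3 | h3
    · rcases hp.dvd_or_dvd h3 with h4 | h4
      · have := cb_deg_dvd h4 hX
        rw [cb_deg_X0] at this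
        omega
      · have := cb_deg_dvd h4 hX1
        omega
    · have h4 : P ∣ N := by
        have h5 := dvd_add h0 (h3.mul_left (MvPolynomial.X 0 ^ q0))
        rwa [sub_add_cancel] at h5
      exact hi.not_isUnit (hr h4 h3)
  · exact ⟨0, fun _ _ q _ h1 => h ⟨q, h1⟩⟩

theorem cb_bound_all (N D G : MvPolynomial (Fin 2) k) (hr : IsRelPrime N D) (hG : G ≠ 0) :
    ∃ B : ℕ, ∀ P : MvPolynomial (Fin 2) k, Irreducible P → 0 < P.degreeOf 1 → P ∣ G → ∀ q, B ≤ q →
      ¬ P ∣ N - MvPolynomial.X 0 ^ q * D := by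
  choose B hB using cb_bound N D hr
  refine ⟨((UniqueFactorizationMonoid.factors G).map B).sum, fun P hi hd hPG q hq h => ?_⟩
  obtain ⟨P', hP', has⟩ := UniqueFactorizationMonoid.exists_mem_factors_of_dvd hG hi hPG
  have hi' : Irreducible P' := has.irreducible hi
  have hd' : 0 < P'.degreeOf 1 :=
    lt_of_lt_of_le hd (cb_deg_dvd has.dvd hi'.ne_zero)
  have hle : B P' ≤ ((UniqueFactorizationMonoid.factors G).map B).sum :=
    Multiset.single_le_sum (fun _ _ => Nat.zero_le _) _ (Multiset.mem_map_of_mem B hP')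
  exact hB P' hi' hd' q (hle.trans hq) (has.symm.dvd.trans h)

end aux

theorem tCaseB (h1 : SDer) (h2 : SCrvA) (h3 : SRes) (h4 : SFld) : SCaseB := by
  intro d k _ _ p _ _ hdp f hdeg hden hrel hinv hjac b hb
  set N := f.num 0 with hN
  set D := f.den 0 with hD
  have hG : jac f * f.den 1 * b * D ≠ 0 :=
    mul_ne_zero (mul_ne_zero (mul_ne_zero hjac (hden 1)) hb) (hden 0)
  obtain ⟨B0, hB0⟩ := cb_bound_all N D _ hrel hG
  refine ⟨B0 + (13 * d + 2 * d ^ 2 + d * b.totalDegree + d + 2), fun s hs hB => ?_⟩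
  set q := p ^ s with hq
  have hdq : d < q := by omega
  set F : MvPolynomial (Fin 2) k := N - MvPolynomial.X 0 ^ q * D with hF
  have hFpos : 0 < F.degreeOf 1 := cb_degF_pos N D d q (hdeg 0).1 (hdeg 0).2 hdq hinv
  have hF0 : F ≠ 0 := by
    intro h
    rw [h, MvPolynomial.degreeOf_zero] at hFpos
    omega
  obtain ⟨P, hPi, hPd, hPF⟩ := cb_factor F hF0 hFpos
  have hPG : ¬ P ∣ jac f * f.den 1 * b * D := fun h => hB0 P hPi hPd h q (by omega) hPF
  obtain ⟨E, iE, iA, x, y, hE, hx, hfin, hrk, hker⟩ := h4 k P F d hPi hPd hPF hF0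
    (cb_degF_le N D d q (hdeg 0).1 (hdeg 0).2)
  have hj : MvPolynomial.aeval ![x, y] (jac f) ≠ 0 := fun h =>
    hPG ((((hker _).1 h).mul_right _).mul_right _ |>.mul_right _)
  have hd1 : MvPolynomial.aeval ![x, y] (f.den 1) ≠ 0 := fun h =>
    hPG (((((hker _).1 h).mul_left _).mul_right _).mul_right _)
  have hbb : MvPolynomial.aeval ![x, y] b ≠ 0 := fun h =>
    hPG ((((hker _).1 h).mul_left _).mul_right _)
  have hd0 : MvPolynomial.aeval ![x, y] (f.den 0) ≠ 0 := fun h =>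
    hPG (((hker _).1 h).mul_left _)
  have hFz : x ^ q * MvPolynomial.aeval ![x, y] (f.den 0) = MvPolynomial.aeval ![x, y] (f.num 0) := by
    have h5 := (hker F).2 hPF
    rw [hF, map_sub, map_mul, map_pow, MvPolynomial.aeval_X] at h5
    exact (sub_eq_zero.1 h5).symm
  have hsep : Algebra.IsSeparable k⟮x⟯ E := h1.1 k E p k⟮x⟯ hfin (lt_of_le_of_lt hrk hdp)
  obtain ⟨δ, hδ⟩ := h1.2 k E x hx hsep
  have hq0 : (q : k) = 0 := by
    rw [hq, Nat.cast_pow, CharP.cast_eq_zero, zero_pow (by omega)]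
  have hn : ∀ n : ℕ, 0 < n → n ≤ d → (n : k) ≠ 0 := by
    intro n hn0 hnd h5
    have h6 := (CharP.cast_eq_zero_iff k p n).1 h5
    have h7 := Nat.le_of_dvd hn0 h6
    omega
  obtain ⟨v, hvx, hvy, hv0, hv1, hvb, hvG⟩ := h2 k E x δ ⟨hx, hsep, hδ⟩ y d b.totalDegree q f b hq0 hrk
    hn hdeg le_rfl (by
      intro i
      fin_cases i
      · exact hd0
      · exact hd1) hbb hj hFz (by omega)
  obtain ⟨a, ha⟩ := h3 k E x y v hvx hvy
  refine ⟨a, ?_, ?_⟩
  · intro i
    fin_cases i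
    · refine ⟨fun h => absurd ((ha _).1 h) (not_lt.2 hv0), ?_⟩
      have h5 : MvPolynomial.eval a (MvPolynomial.X 0 ^ q * f.den 0 - f.num 0) = 0 := by
        rw [ha, map_sub, map_mul, map_pow, MvPolynomial.aeval_X]
        have h6 : (![x, y] 0) ^ q * MvPolynomial.aeval ![x, y] (f.den 0) -
            MvPolynomial.aeval ![x, y] (f.num 0) = 0 := sub_eq_zero.2 hFz
        rw [h6, AddValuation.map_zero]
        exact WithTop.coe_lt_top 0
      rw [map_sub, map_mul, map_pow, MvPolynomial.eval_X] at h5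
      exact sub_eq_zero.1 h5
    · refine ⟨fun h => absurd ((ha _).1 h) (not_lt.2 hv1), ?_⟩
      have h5 : MvPolynomial.eval a (MvPolynomial.X 1 ^ q * f.den 1 - f.num 1) = 0 := by
        rw [ha, map_sub, map_mul, map_pow, MvPolynomial.aeval_X]
        exact hvG
      rw [map_sub, map_mul, map_pow, MvPolynomial.eval_X] at h5
      exact sub_eq_zero.1 h5
  · exact fun h => absurd ((ha _).1 h) (not_lt.2 hvb)

end Pool.Agent.Lib.MP_16285c_agZ.Hru
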