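import Pool.Agent.Lib.MP_16285c_agZ.Hru.Spec

/-!
# Separability in degree less than p; the derivation extending d/dx
-/

set_option autoImplicit false

namespace Pool.Agent.Lib.MP_16285c_agZ.Hru
open Polynomial
open scoped IntermediateField
open scoped TensorProduct

private theorem der_sep {k E : Type} [Field k] [Field E] [Algebra k E] {p : ℕ} [Fact p.Prime]
    [CharP k p] (K : IntermediateField k E) (hf : Module.Finite K E)
    (hlt : Module.finrank K E < p) : Algebra.IsSeparable K E := by
  have : CharP K p := charP_of_injective_algebraMap (algebraMap k K).injective p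
  refine ⟨fun u => ?_⟩
  rcases Polynomial.separable_or p (minpoly.irreducible (IsIntegral.of_finite K u)) with
    h | ⟨-, g, -, hg⟩
  · exact h
  · exfalso
    have h1 := Polynomial.natDegree_expand p g
    rw [hg] at h1
    have h2 : (minpoly K u).natDegree ≤ Module.finrank K E := minpoly.natDegree_le u
    have h3 := minpoly.natDegree_pos (IsIntegral.of_finite K u)
    have h4 : 1 ≤ g.natDegree := by
      by_contra hc
      rw [Nat.lt_one_iff.1 (not_le.1 hc), zero_mul] at h1
      omega
    have h5 : p ≤ g.natDegree * p := Nat.le_mul_of_pos_left p h4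
    omega

private theorem der_der (K L : Type) [Field K] [Field L] [Algebra K L] [Algebra K[X] L]
    [IsScalarTower K K[X] L] [Algebra.FormallyEtale K[X] L] :
    ∃ D : Derivation K L L, D (algebraMap K[X] L X) = 1 := by
  refine ⟨(((Derivation.liftKaehlerDifferential
    (Polynomial.mkDerivation K (1 : L))).liftBaseChange L) ∘ₗ
      ((KaehlerDifferential.tensorKaehlerEquivOfFormallyEtale K K[X] L).symm :
        Ω[L⁄K] →ₗ[L] L ⊗[K[X]] Ω[K[X]⁄K])).compDer (KaehlerDifferential.D K L), ?_⟩
  change (LinearMap.liftBaseChange L ((mkDerivation K) (1 : L)).liftKaehlerDifferential)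
    ((KaehlerDifferential.tensorKaehlerEquivOfFormallyEtale K K[X] L).symm
      (KaehlerDifferential.D K L (algebraMap K[X] L X))) = 1
  rw [KaehlerDifferential.tensorKaehlerEquivOfFormallyEtale_symm_D_algebraMap,
    LinearMap.liftBaseChange_tmul, one_smul, Derivation.liftKaehlerDifferential_comp_D,
    Polynomial.mkDerivation_X]

theorem tDer : SDer := by
  refine ⟨fun k E _ _ _ p _ _ K hf hlt => der_sep K hf hlt, ?_⟩
  intro k E _ _ _ x hx hs
  let e : RatFunc k ≃ₐ[k] k⟮x⟯ := RatFunc.algEquivOfTranscendental x hx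
  let i1 : Algebra (RatFunc k) E :=
    ((algebraMap k⟮x⟯ E).comp (e : RatFunc k →+* k⟮x⟯)).toAlgebra
  let i2 : Algebra k[X] E :=
    ((algebraMap (RatFunc k) E).comp (algebraMap k[X] (RatFunc k))).toAlgebra
  have t1 : IsScalarTower k[X] (RatFunc k) E := IsScalarTower.of_algebraMap_eq fun a => rfl
  have hk : ∀ a : k, algebraMap (RatFunc k) E (algebraMap k (RatFunc k) a) = algebraMap k E a := by
    intro a
    change algebraMap k⟮x⟯ E (e (algebraMap k (RatFunc k) a)) = _
    rw [e.commutes]
    rfl
  have t2 : IsScalarTower k k[X] E := by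
    refine IsScalarTower.of_algebraMap_eq fun a => ?_
    rw [← hk a, IsScalarTower.algebraMap_apply k k[X] (RatFunc k)]
    rfl
  have s1 : Algebra.IsSeparable (RatFunc k) E := by
    have := hs
    refine Algebra.IsSeparable.of_equiv_equiv (A₁ := k⟮x⟯) (B₁ := E) e.symm.toRingEquiv
      (RingEquiv.refl E) ?_
    ext a
    change algebraMap k⟮x⟯ E (e (e.symm a)) = algebraMap k⟮x⟯ E a
    rw [e.apply_symm_apply]
  have h1 : Algebra.FormallyEtale k[X] (RatFunc k) :=
    Algebra.FormallyEtale.of_isLocalization (nonZeroDivisors k[X])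
  have h3 : Algebra.FormallyEtale (RatFunc k) E := Algebra.FormallyEtale.of_isSeparable _ _
  have h4 : Algebra.FormallyEtale k[X] E := Algebra.FormallyEtale.comp _ (RatFunc k) _
  obtain ⟨D, hD⟩ := der_der k E
  refine ⟨D, ?_⟩
  have hX : algebraMap k[X] E X = x := by
    change algebraMap k⟮x⟯ E (e (algebraMap k[X] (RatFunc k) X)) = x
    rw [RatFunc.algebraMap_X]
    exact RatFunc.algEquivOfTranscendental_X x hx
  rw [hX] at hD
  exact hD

end Pool.Agent.Lib.MP_16285c_agZ.Hru
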