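import Pool.Agent.Lib.MP_7f581e_Z.Crv.PlacesOver
import Pool.Agent.Lib.MP_16285c_ag.Spec

/-!
# Frobenius points of dominant rational self-maps of the plane: statements

Theorem. Let `k` be algebraically closed of characteristic `p`, `f = (f₀, f₁)` a rational self-map of the plane with
numerators and denominators of degree `≤ d < p` and nonzero Jacobian determinant, `b ≠ 0` a polynomial. If `q = p ^ s` is
large (depending on `f` and `b`) there is a point `a` with `f(a) = (a₀ ^ q, a₁ ^ q)`, `b(a) ≠ 0` (Hrushovski's theorem in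
dimension two, separable case).

PROOF. If `f₀ ∈ k(x)` solve two equations in one variable (`SCaseA`). Otherwise `N₀ - x ^ q D₀` has an irreducible factor `P`
which involves `y`; `E = k(x,y)`, `P(x,y) = 0`, is a function field with `[E : k(x)] ≤ d < p`, so `E / k(x)` is separable.
Let `δ` be the extension of `d/dx`. Count the zeros of `G = y ^ q - f₁` and of `δ G` (`SCrvA`).

Every lemma is a `Prop` with its proof in the docstring; the files proving them are independent: used statements are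
hypotheses. Places: `Pool/Agent/Lib/MP_7f581e_Z/Crv` (namespace `MP7Z`; `Place k E`, `v.ord : AddValuation E (WithTop ℤ)`,
`v.oz h : ℤ` is the order, `0` for `h = 0`; the same function is called `v.pord`, definitionally equal, with more lemmas in
`Crv/Places.lean`; see also `finite_ord_ne`, `MP7Z.exists_const`, `finite_adjoin`, `sum_zeros`, `adjoin_sub_const`, `place_eq`,
`exists_place_of_valuationSubring`).
-/

set_option autoImplicit false

namespace Pool.Agent.Lib.MP_16285c_agZ.Hru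

open MP7Z
open scoped IntermediateField
open Pool.Agent.Lib.MP_16285c_ag (RM FrobPt)

/-- Numerator of a first derivative of a coordinate of `f`. -/
noncomputable def wj {R : Type} [CommRing R] (f : RM R 2) (i j : Fin 2) : MvPolynomial (Fin 2) R :=
  MvPolynomial.pderiv j (f.num i) * f.den i - f.num i * MvPolynomial.pderiv j (f.den i)

/-- Numerator of the Jacobian determinant of `f`. -/
noncomputable def jac {R : Type} [CommRing R] (f : RM R 2) : MvPolynomial (Fin 2) R :=
  wj f 0 0 * wj f 1 1 - wj f 0 1 * wj f 1 0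

/-- The number of zeros. -/
noncomputable def Zn (k : Type) {E : Type} [Field k] [Field E] [Algebra k E] (h : E) : ℤ :=
  ∑ᶠ v : Place k E, max (v.oz h) 0

/-- The number of poles. -/
noncomputable def Pn (k : Type) {E : Type} [Field k] [Field E] [Algebra k E] (h : E) : ℤ :=
  ∑ᶠ v : Place k E, max (-(v.oz h)) 0

/-- `E / k(x)` is separable and `δ` extends `d/dx`. -/
structure Sit (k E : Type) [Field k] [Field E] [Algebra k E] (x : E) (δ : Derivation k E E) : Prop where
  tr : Transcendental k x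
  sep : Algebra.IsSeparable k⟮x⟯ E
  one : δ x = 1

/-- (S1) PROOF. (a) Let `u : E`, `m = minpoly K u`, irreducible of degree `≤ [E : K] < p`. By `Polynomial.separable_or p` either `m` is
separable or `m = expand K p g`, whose degree is a positive multiple of `p`. (b) as in `dv_der` of
`Pool/Agent/Lib/MP_72e2e6_nt/WP/El/Dv.lean` (copy it): let `E` be a `k[X]`-algebra by `X ↦ x` (`(Polynomial.aeval x).toRingHom.toAlgebra`);
it is formally étale: `Algebra.FormallyEtale.comp k[X] K E`, where `K` is `k(x)`; `K` is a localization of `k[X]` (`x` is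
transcendental) and `E / K` is separable. It may be easier to use `A = Algebra.adjoin k {x}` in place of `k[X]`
(compare `Pool/Agent/Lib/MP_e005b4_ag/Derivs.lean`: `open scoped IntermediateField.algebraAdjoinAdjoin`). -/
def SDer : Prop :=
  (∀ (k E : Type) [Field k] [Field E] [Algebra k E] (p : ℕ) [Fact p.Prime] [CharP k p]
    (K : IntermediateField k E), Module.Finite K E → Module.finrank K E < p → Algebra.IsSeparable K E) ∧
  (∀ (k E : Type) [Field k] [Field E] [Algebra k E] (x : E), Transcendental k x →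
    Algebra.IsSeparable k⟮x⟯ E → ∃ δ : Derivation k E E, δ x = 1)

/-- (S2) PROOF. `K = k⟮x⟯`, `K' = k⟮h⟯`. `h` is transcendental: otherwise it is a constant (`transcendental_of`), and `δ h = 0`. Let
`d : E → Ω[E⁄K']` be the universal derivation (`KaehlerDifferential.D K' E`), a `k`-derivation (`Derivation.restrictScalars`), and
`D' u = d u - δ u • d x`, a `k`-derivation of `E` with values in `Ω = Ω[E⁄K']`. It vanishes at `x`, so it vanishes on `K`
(elements of `K` are quotients `a(x) / b(x)`, `IntermediateField.mem_adjoin_simple_iff`; `Derivation` of a quotient: from `D'(a) = D'(c b)`), and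
it vanishes on `E` because `E / K` is separable: for `u : E` with minimal polynomial `m` over `K` one has
`0 = D'(m(u)) = m'(u) • D' u` (the coefficients are in `K`), `m'(u) ≠ 0`. (Or: `D'` is a `K`-derivation and `Ω[E⁄K] = 0` by
`Algebra.FormallyUnramified.of_isSeparable`.) So `d u = δ u • d x` for all `u`; `0 = d h = δ h • d x` (`h ∈ K'`), `d x = 0`, `d = 0`, `Ω = 0` (it is
spanned by the range of `d`), and `E / K'` is separable by `Algebra.FormallyUnramified.iff_isSeparable`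
(`Algebra.FormallyUnramified.iff_subsingleton_kaehlerDifferential`; `E / K'` is finite by `finite_adjoin`). -/
def SSepH : Prop :=
  ∀ (k E : Type) [Field k] [IsAlgClosed k] [Field E] [Algebra k E] [IsCurveField k E] (x : E)
    (δ : Derivation k E E), Sit k E x δ → ∀ h : E, δ h ≠ 0 →
    Transcendental k h ∧ Algebra.IsSeparable k⟮h⟯ E

/-- (S3) The product formula. PROOF (uses `SSepH`). (a) Let first `δ h ≠ 0`. `sum_zeros` for `h` and for `h⁻¹` (`k⟮h⁻¹⟯ = k⟮h⟯`; its
derivative is `- h⁻² δ h ≠ 0`): both numbers are `[E : k(h)]` (convert the finite sums: `finsum_eq_sum_of_support_subset`;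
`v.oz h⁻¹ = - v.oz h`; `0 < v.ord h ↔ 0 < v.oz h`). In particular `∑ᶠ v, v.oz h = 0`. If `δ h = 0`, `h ≠ 0`, then `δ (h x) = h ≠ 0`, and
`v.oz (h x) = v.oz h + v.oz x`, so `∑ᶠ v, v.oz h = 0` (all supports are finite: `finite_ord_ne`), and
`v.oz h = max (v.oz h) 0 - max (-(v.oz h)) 0`. If `h = 0` both numbers are `0`. (b) is the case `h = x`. (c) `sum_zeros` for
`x - c` and `x⁻¹`: one term of a finite sum of nonnegative integers is at most the sum; `adjoin_sub_const`. -/
def SPrd : Prop :=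
  ∀ (k E : Type) [Field k] [IsAlgClosed k] [Field E] [Algebra k E] [IsCurveField k E] (x : E)
    (δ : Derivation k E E), Sit k E x δ →
    (∀ h : E, Zn k h = Pn k h) ∧ Pn k x = Module.finrank k⟮x⟯ E ∧
    (∀ (v : Place k E) (c : k), v.oz (x - algebraMap k E c) ≤ Module.finrank k⟮x⟯ E) ∧
    (∀ v : Place k E, -(v.oz x) ≤ Module.finrank k⟮x⟯ E)

/-- (S4) A derivation is bounded on the valuation ring of a place. PROOF. Let `t = x` if `0 ≤ v.ord x` and `t = x⁻¹` otherwise: `t` is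
transcendental, `k⟮t⟯ = k⟮x⟯`, `0 ≤ v.ord t`. `A = Algebra.adjoin k {t}` is isomorphic to `k[X]`, a principal ideal domain, with fraction
field `K = k⟮t⟯` (`open scoped IntermediateField.algebraAdjoinAdjoin`). `B = integralClosure A E` is a Dedekind domain with fraction field `E`,
finite over `A` (`integralClosure.isDedekindDomain`, `integralClosure.isFractionRing_of_finite_extension`, `IsIntegralClosure.finite`: `E / K` is
finite separable): `B` is the span over `A` of `b₁, …, b_r`. `0 ≤ v` on `A`, so on `B` (integral elements; the valuation ring is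
integrally closed; compare `hB0` in the proof of `exists_places_over_aux` in `Crv/PlacesOver.lean`). Let `M ≥ 0` be such that
`- M ≤ v (D t)` and `- M ≤ v (D b_i)`. The set `{b : 0 ≤ v b, - M ≤ v (D b)}` is a `k`-subalgebra of `E` which contains `t` and the `b_i`, so it
contains `B`. Let `𝔓 = {b ∈ B : 0 < v b}`, a nonzero prime ideal of `B`. Every `u` with `0 ≤ v u` satisfies `u s = a` with `a, s ∈ B`, `v s = 0`:
as in `exists_places_over_aux` the place attached to `𝔓` (`exists_place_of_valuationSubring`) is `v` by `place_eq`, and one uses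
`HeightOneSpectrum.exists_primeCompl_mul_eq_of_integer`. Then `s D u = D a - u D s`, so `v (D u) ≥ - M`. -/
def SBd : Prop :=
  ∀ (k E : Type) [Field k] [IsAlgClosed k] [Field E] [Algebra k E] [IsCurveField k E] (x : E)
    (δ : Derivation k E E), Sit k E x δ → ∀ (D : Derivation k E E) (v : Place k E),
    ∃ M : ℤ, ∀ u : E, 0 ≤ v.ord u → ((-M : ℤ) : WithTop ℤ) ≤ v.ord (D u)

/-- (S5) The local inequality. PROOF (uses `SBd` for `D = δ`). Let `π` be a uniformizer, `v π = 1`, `m = v.ord (δ π)` in `WithTop ℤ`. CLAIM: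
`m ≤ v (δ u)` for all `u` with `0 ≤ v u`. By `SBd` there is a lower bound `L₀` for all these `v (δ u)`. If `L` is a lower bound then
so is `min m (L + 1)`: `u = c + π u₁` with `c : k`, `0 ≤ v u₁` (`MP7Z.exists_const`), `δ u = u₁ δ π + π δ u₁`. So by induction
`min m (L₀ + j)` is a lower bound for all `j : ℕ`; if `m = ⊤` then `δ u = 0` for all these `u`, so `δ = 0`, a contradiction to
`δ t ≠ 0`; otherwise take `j` large. Write `t = π ^ e w`, `v w = 0` (`w = π ^ (-e) t`, integral powers). Then `δ t = e π ^ (e-1) w δ π + π ^ e δ w`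
(`Derivation` of a `zpow`: prove it for natural powers and inverses or use `Derivation.leibniz_zpow`), the first term has the order
`e - 1 + m` (`e` is a nonzero constant) and the second the order `≥ e + m`. So `v (δ t) = e - 1 + m`. In the same way for `g = π ^ j u`, `v u = 0`,
`j = v g`: `v (δ g) ≥ j - 1 + m = v g - e + v (δ t)`. (`δ g ≠ 0` implies `g ≠ 0`.) -/
def SLoc : Prop :=
  ∀ (k E : Type) [Field k] [IsAlgClosed k] [Field E] [Algebra k E] [IsCurveField k E] (x : E)
    (δ : Derivation k E E), Sit k E x δ → ∀ (v : Place k E) (t : E), ((v.oz t : ℤ) : k) ≠ 0 → δ t ≠ 0 →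
    ∀ g : E, δ g ≠ 0 → v.oz g - v.oz t + v.oz (δ t) ≤ v.oz (δ g)

/-- (S6) Numbers of poles. PROOF. All the families have finite support (`finite_ord_ne`; `v.oz 0 = 0`), so inequalities may be checked
for every place (`finsum_le_finsum`, `finsum_add_distrib`, `mul_finsum` or pass to a sum over a finite set). Sum: `v (g + h) ≥ min (v g) (v h)`
if `g, h, g + h ≠ 0`; the other cases are trivial. Last claim: let `m = max (-(v x)) 0 + max (-(v y)) 0 ≥ 0`. Every monomial
`c x ^ i y ^ j` of `A` has order `≥ - (i + j) m ≥ - (deg A) m` (in `WithTop ℤ`; `x` or `y` may be `0`), so `v (A(x,y)) ≥ - (deg A) m`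
(`MvPolynomial.aeval_def`, `MvPolynomial.eval₂_eq`, `AddValuation.map_le_sum`, `MvPolynomial.le_totalDegree`). -/
def SPn : Prop :=
  ∀ (k E : Type) [Field k] [IsAlgClosed k] [Field E] [Algebra k E] [IsCurveField k E],
    (∀ g h : E, Pn k (g + h) ≤ Pn k g + Pn k h) ∧ (∀ g h : E, Pn k (g * h) ≤ Pn k g + Pn k h) ∧
    (∀ (g : E) (n : ℕ), Pn k (g ^ n) = n * Pn k g) ∧ (∀ g : E, Pn k g⁻¹ = Zn k g) ∧
    (∀ g : E, Pn k (-g) = Pn k g) ∧ (∀ g : E, 0 ≤ Pn k g) ∧
    (∀ (x y : E) (A : MvPolynomial (Fin 2) k),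
      Pn k (MvPolynomial.aeval ![x, y] A) ≤ A.totalDegree * (Pn k x + Pn k y))

/-- (S7) The counting argument. PROOF (uses `SPrd`, `SLoc`, `SPn`). Write `A` for `A(x,y) : E`. `(q : k) = 0` implies `δ (u ^ q) = 0`. Let
`n = [E : k(x)]`, `1 ≤ n ≤ d` (`finite_adjoin`, `Module.finrank_pos`), `H = Pn x + Pn y ≥ n ≥ 1`.
(1) `δ (A(x,y)) = (∂₀ A)(x,y) + (∂₁ A)(x,y) δ y` (induction on `A`). From `δ (x ^ q D₀) = δ N₀` one gets `w₀₀ + w₀₁ δ y = 0`: indeed
`(w₀₀ + w₀₁ δ y) = δ N₀ D₀ - N₀ δ D₀ = x ^ q δ D₀ D₀ - x ^ q D₀ δ D₀ = 0`. Let `G = y ^ q - N₁ / D₁`. `D₁ ^ 2 δ G = -(w₁₀ + w₁₁ δ y)`, so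
`jac = w₀₀ w₁₁ - w₀₁ w₁₀ = - w₀₁ (w₁₁ δ y + w₁₀) = w₀₁ D₁ ^ 2 δ G`. So `w₀₁ ≠ 0`, `δ G ≠ 0`, `G ≠ 0` (in `E`).
(2) LOCAL: `v G ≤ v (δ G) + d` for every place `v`, where `v = v.oz`. If `0 ≤ v x` let `c` be the residue of `x`
(`MP7Z.exists_const`), `t = x - c`, `δ t = 1`, `1 ≤ v t ≤ n ≤ d` (`SPrd`), so `(v t : k) ≠ 0`; `SLoc`. If `v x < 0` let `t = x⁻¹`, `e = v t = - v x`,
`1 ≤ e ≤ n`, `δ t = - x⁻²`, `v (δ t) = 2 e`; `SLoc` gives `v G - e + 2 e ≤ v (δ G)`.
(3) Suppose that the claim is false. Let `ω v = max (-v x) 0 + max (-v y) 0 + max (v D₀) 0 + max (v D₁) 0 + max (v b) 0`. Then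
`max (v G) 0 ≤ max (v (δ G)) 0 + d ω v` for every `v`: if `0 < v G` and `ω v = 0` then `v x, v y ≥ 0`, hence `v D₁ = 0` (it is `≥ 0` as a polynomial in
`x, y`, or use only `v (y ^ q D₁ - N₁) = v (G D₁)` in `WithTop ℤ` and `v D₁ ≥ 0`) and `v` is as in the claim; so `ω v ≥ 1` and (2). Sum over `v` (finite
supports, `finite_ord_ne`): `Zn G ≤ Zn (δ G) + d (Pn x + Pn y + Zn D₀ + Zn D₁ + Zn b)`.
(4) `Zn = Pn` (`SPrd`). By the last claim of `SPn`: `Pn D_i ≤ d H`, `Pn N_i ≤ d H`, `Pn b ≤ b' H`, `Pn jac ≤ 4 d H`, `Pn w₀₁ ≤ 2 d H`, because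
`totalDegree w_ij ≤ 2 d` (`totalDegree (pderiv j A) ≤ totalDegree A`), `totalDegree jac ≤ 4 d`. So
`Pn (δ G) = Pn (jac * w₀₁⁻¹ * (D₁⁻¹) ^ 2) ≤ 4 d H + 2 d H + 2 d H`.
`q Pn x = Pn (x ^ q) = Pn (N₀ D₀⁻¹) ≤ 2 d H`, `q Pn y = Pn (G + N₁ D₁⁻¹) ≤ Pn G + 2 d H`. Together
`q H ≤ 2 d H + 2 d H + 8 d H + d (1 + 2 d + b') H = (13 d + 2 d ^ 2 + d b') H`, a contradiction. -/
def SCrvA : Prop :=
  ∀ (k E : Type) [Field k] [IsAlgClosed k] [Field E] [Algebra k E] [IsCurveField k E] (x : E)
    (δ : Derivation k E E), Sit k E x δ → ∀ (y : E) (d b' q : ℕ) (f : RM k 2)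
    (b : MvPolynomial (Fin 2) k), (q : k) = 0 → Module.finrank k⟮x⟯ E ≤ d →
    (∀ n : ℕ, 0 < n → n ≤ d → (n : k) ≠ 0) →
    (∀ i, (f.num i).totalDegree ≤ d ∧ (f.den i).totalDegree ≤ d) → b.totalDegree ≤ b' →
    (∀ i, MvPolynomial.aeval ![x, y] (f.den i) ≠ 0) → MvPolynomial.aeval ![x, y] b ≠ 0 →
    MvPolynomial.aeval ![x, y] (jac f) ≠ 0 →
    x ^ q * MvPolynomial.aeval ![x, y] (f.den 0) = MvPolynomial.aeval ![x, y] (f.num 0) →
    13 * d + 2 * d ^ 2 + d * b' < q →
    ∃ v : Place k E, 0 ≤ v.ord x ∧ 0 ≤ v.ord y ∧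
      v.ord (MvPolynomial.aeval ![x, y] (f.den 0)) ≤ 0 ∧
      v.ord (MvPolynomial.aeval ![x, y] (f.den 1)) ≤ 0 ∧ v.ord (MvPolynomial.aeval ![x, y] b) ≤ 0 ∧
      0 < v.ord (y ^ q * MvPolynomial.aeval ![x, y] (f.den 1) - MvPolynomial.aeval ![x, y] (f.num 1))

/-- (S8) Residues. PROOF. `a 0`, `a 1` are the residues of `x`, `y` (`MP7Z.exists_const`). By induction on `A` (`MvPolynomial.induction_on`) for all
`A`: `0 ≤ v (A(x,y))` and `0 < v (A(x,y) - A(a))`. If `A(a) = 0` then `0 < v (A(x,y))`. If `A(a) ≠ 0` then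
`v (A(a)) = 0` (`Place.ord_const`) and `0 < v (A(x,y))` would give `0 < v (A(a))`. -/
def SRes : Prop :=
  ∀ (k E : Type) [Field k] [IsAlgClosed k] [Field E] [Algebra k E] [IsCurveField k E] (x y : E)
    (v : Place k E), 0 ≤ v.ord x → 0 ≤ v.ord y →
    ∃ a : Fin 2 → k, ∀ A : MvPolynomial (Fin 2) k,
      MvPolynomial.eval a A = 0 ↔ 0 < v.ord (MvPolynomial.aeval ![x, y] A)

/-- (S9) The function field of a plane curve. PROOF. `R = MvPolynomial (Fin 2) k ⧸ span {P}` is a domain, `E = FractionRing R`, `x, y` the images of the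
variables; `aeval ![x, y] A` is the image of `A`, which is `0` iff `P ∣ A`. `x` is transcendental: for `g ≠ 0` in `k[X]` the polynomial
`g(X 0) ≠ 0` is not divisible by `P` because `degreeOf 1` is additive for products of nonzero polynomials (`MvPolynomial.degreeOf_mul_eq`) and
`degreeOf 1 (g(X 0)) = 0`. `E = k(x)(y)`: the intermediate field `k(x)(y)` contains the images of all polynomials and so all
quotients. View `F` as a polynomial in the variable `X 1` over `k[X 0]` (for example `F = ∑ aeval (X 0) (c j) * X 1 ^ j`, `j ≤ d`): as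
`P` does not divide all the `c j (X 0)` (not all are zero, and a nonzero one is not divisible by `P`), the polynomial
`∑ c j (x) T ^ j` over `k(x)` is nonzero of degree `≤ d` and vanishes at `y`. So `y` is algebraic over `k(x)` of degree `≤ d`
(`minpoly`: `minpoly.natDegree_le_of_..`/`minpoly.dvd`), `[E : k(x)] ≤ d` (`IntermediateField.adjoin.finrank`), and `E / k` is a curve field. -/
def SFld : Prop :=
  ∀ (k : Type) [Field k] (P F : MvPolynomial (Fin 2) k) (d : ℕ), Irreducible P → 0 < P.degreeOf 1 →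
    P ∣ F → F ≠ 0 → F.degreeOf 1 ≤ d → ∃ (E : Type) (_ : Field E) (_ : Algebra k E) (x y : E),
      IsCurveField k E ∧ Transcendental k x ∧ Module.Finite k⟮x⟯ E ∧ Module.finrank k⟮x⟯ E ≤ d ∧
      ∀ A : MvPolynomial (Fin 2) k, MvPolynomial.aeval ![x, y] A = 0 ↔ P ∣ A

/-- (S10) The case `f₀ ∈ k(x)`. PROOF (`MP_16285c_ag.countP`, with its statement `CountProp`, may be imported from
`Pool/Agent/Lib/MP_16285c_ag/Count.lean`). `w₀₁ = 0` (`∂₁` of a polynomial in `X 0` is `0`; product rule), `w₀₀ = g ^ 2 (N' D - N D')(X 0)`, so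
`jac f = w₀₀ w₁₁ ≠ 0` gives `Wr N D ≠ 0` and `w₁₁ ≠ 0`. Let `β = b * f.den 0 * f.den 1 * w₁₁ ≠ 0` and view
`β` as a polynomial in `X 1` over `k[X 0]`; let `c ≠ 0` in `k[X]` be one nonzero coefficient of it and `n` its degree in `X 1`. Let `d` bound the degrees
of `N`, `D` and the degrees in `X 1` of `f.num 1`, `f.den 1`; `B = 2 d + deg c + n + 1`. `CountProp` for `N, D, c` gives `a₀` with
`a₀ ^ q D(a₀) = N(a₀)`, `c(a₀) ≠ 0`, so `β(a₀, Y) ≠ 0` in `k[Y]`, of degree `≤ n`, and so `w₁₁(a₀, Y) ≠ 0`, which is (up to the sign)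
`Wr (f.num 1 (a₀, Y)) (f.den 1 (a₀, Y))`. `CountProp` for these and `β(a₀, Y)` gives `a₁` with
`a₁ ^ q (f.den 1)(a₀,a₁) = (f.num 1)(a₀,a₁)`, `β(a₀,a₁) ≠ 0`. The point `a = ![a₀, a₁]` has the claimed properties. -/
def SCaseA : Prop :=
  ∀ (k : Type) [Field k] [IsAlgClosed k] (p : ℕ) [Fact p.Prime] [CharP k p] (f : RM k 2)
    (g : MvPolynomial (Fin 2) k) (N D : Polynomial k),
    f.num 0 = g * Polynomial.aeval (MvPolynomial.X 0) N →
    f.den 0 = g * Polynomial.aeval (MvPolynomial.X 0) D →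
    (∀ i, f.den i ≠ 0) → jac f ≠ 0 → ∀ b : MvPolynomial (Fin 2) k, b ≠ 0 →
    ∃ B : ℕ, ∀ s, 1 ≤ s → B ≤ p ^ s → ∃ a : Fin 2 → k, FrobPt f (p ^ s) a ∧ MvPolynomial.eval a b ≠ 0

/-- (S11) The case `f₀ ∉ k(x)`, in lowest terms. PROOF (uses `SDer`, `SCrvA`, `SRes`, `SFld`). `N = f.num 0`, `D = f.den 0`. For `q > d` let `F_q = N - X 0 ^ q * D`.
(1) `degreeOf 1 F_q ≤ d` and `degreeOf 1 F_q ≥ 1`: the monomials of `N` have exponents `< q` at `X 0` and those of `X 0 ^ q * D` have
exponents `≥ q`, so there is no cancellation, and one of `N`, `D` involves `X 1`. `F_q ≠ 0`. As `degreeOf 1` is additive on products,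
`F_q` has an irreducible factor `P` with `degreeOf 1 P ≥ 1` (`UniqueFactorizationMonoid` / induction on factors).
(2) A given irreducible `P` with `degreeOf 1 P ≥ 1` divides `F_q` for at most one `q`: if it divides `F_q` and `F_{q'}`, `q < q'`, it divides
`X 0 ^ q * (X 0 ^ (q' - q) - 1) * D`; it does not divide the polynomials `≠ 0` in `X 0` (`degreeOf 1`), so it divides `D`, and `N`: a
contradiction. So there is `B₀` such that for `q ≥ B₀` no irreducible factor `P` of `F_q` with `degreeOf 1 P ≥ 1` divides `jac f * f.den 1 * b * D`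
(finitely many irreducible factors up to associates, `UniqueFactorizationMonoid.factors`/`normalizedFactors`; every irreducible divisor is
associated to one of them).
(3) Let `B = max B₀ (13 d + 2 d ^ 2 + d b' + d + 2)`, `b' = totalDegree b`, `q = p ^ s ≥ B`, `P` as in (1), `E, x, y` from `SFld` (with `F = F_q`). By (2)
the images of `jac f`, `f.den i`, `b` in `E` are `≠ 0`, and `x ^ q D(x,y) = N(x,y)`. `E / k(x)` is separable as `[E : k(x)] ≤ d < p` (`SDer`), `δ` from
`SDer`; `(n : k) ≠ 0` for `0 < n ≤ d < p` (`CharP.cast_eq_zero_iff`). `SCrvA` gives `v` and `SRes` gives `a`. For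
`A = X 0 ^ q * D - N` and `A = X 1 ^ q * f.den 1 - f.num 1` one has `0 < v (A(x,y))`, so `A(a) = 0`; and `D(a), (f.den 1)(a), b(a) ≠ 0`. -/
def SCaseB : Prop :=
  ∀ (d : ℕ) (k : Type) [Field k] [IsAlgClosed k] (p : ℕ) [Fact p.Prime] [CharP k p], d < p →
    ∀ f : RM k 2, (∀ i, (f.num i).totalDegree ≤ d ∧ (f.den i).totalDegree ≤ d) →
    (∀ i, f.den i ≠ 0) → IsRelPrime (f.num 0) (f.den 0) →
    (0 < (f.num 0).degreeOf 1 ∨ 0 < (f.den 0).degreeOf 1) → jac f ≠ 0 →
    ∀ b : MvPolynomial (Fin 2) k, b ≠ 0 →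
    ∃ B : ℕ, ∀ s, 1 ≤ s → B ≤ p ^ s → ∃ a : Fin 2 → k, FrobPt f (p ^ s) a ∧ MvPolynomial.eval a b ≠ 0

/-- (S12) The theorem. PROOF (uses `SCaseA`, `SCaseB`). `p0 = d + 1`. `f.num 0 = g N`, `f.den 0 = g D` with `N`, `D` relatively prime (UFD; `g ≠ 0`; `D ≠ 0`).
If `N` and `D` do not involve `X 1` they are polynomials in `X 0`, `SCaseA`. Otherwise let `f'` be `f` with the first coordinate replaced by
`N`, `D`; `w_{0j}(f) = g ^ 2 w_{0j}(f')`, so `jac f = g ^ 2 jac f'`, `jac f' ≠ 0`; the degrees of divisors of nonzero polynomials are not larger.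
`SCaseB` for `f'` and `b * g` gives `a`, which is a Frobenius point of `f` as `g(a) ≠ 0`. -/
def SFrob2 : Prop :=
  ∀ d : ℕ, ∃ p0 : ℕ, ∀ (k : Type) [Field k] [IsAlgClosed k] (p : ℕ) [Fact p.Prime] [CharP k p],
    p0 ≤ p → ∀ f : RM k 2, (∀ i, (f.num i).totalDegree ≤ d ∧ (f.den i).totalDegree ≤ d) →
    (∀ i, f.den i ≠ 0) → jac f ≠ 0 → ∀ b : MvPolynomial (Fin 2) k, b ≠ 0 →
    ∃ B : ℕ, ∀ s, 1 ≤ s → B ≤ p ^ s → ∃ a : Fin 2 → k, FrobPt f (p ^ s) a ∧ MvPolynomial.eval a b ≠ 0

end Pool.Agent.Lib.MP_16285c_agZ.Hru
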